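import Mathlib

namespace Pool.Agent.H386R2.HL
open Finset

/-- `ν_p(a)`: the number of residue classes modulo `p` occupied by `a_1, ..., a_r` -/
def nu {r : ℕ} (a : Fin r → ℕ) (p : ℕ) : ℕ := #(univ.image fun i => a i % p)

/-- the tuple is admissible: no prime has all its residue classes occupied -/
def Admissible {r : ℕ} (a : Fin r → ℕ) : Prop := ∀ p : ℕ, p.Prime → nu a p < p

/-- the local factor of the Hardy-Littlewood singular series at `p` -/
noncomputable def localFactor {r : ℕ} (a : Fin r → ℕ) (p : ℕ) : ℝ :=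
  ((1 - 1 / (p : ℝ))⁻¹) ^ r * (1 - (nu a p : ℝ) / p)

/-- the Hardy-Littlewood singular series, an absolutely convergent product over all primes -/
noncomputable def singularSeries {r : ℕ} (a : Fin r → ℕ) : ℝ := ∏' p : Nat.Primes, localFactor a p

/-- `π(x; a_1, ..., a_r)` -/
def tupleCount {r : ℕ} (a : Fin r → ℕ) (x : ℕ) : ℕ := #{n ∈ Icc 1 x | ∀ i, (n + a i).Prime}

end Pool.Agent.H386R2.HL
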