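import Mathlib
import Pool.Agent.H386R2.HL.Defs
import Pool.Agent.Helper507.PNT

namespace Pool.Agent.H386R2.HL
open Finset

/-- prime number theorem in long shifted windows -/
theorem pnt_window (ε : ℝ) (hε : 0 < ε) : ∃ x₀ : ℕ, ∀ x : ℕ, x₀ ≤ x → ∀ j : ℕ, j ≤ x →
    (1 - ε) * (x / Real.log x) ≤ (Nat.primeCounting (x + j) : ℝ) - Nat.primeCounting j := by
  set η : ℝ := min (1 / 2) (ε / 11) with hη
  have hη0 : 0 < η := by positivity
  have hη1 : η ≤ 1 / 2 := min_le_left _ _
  have hη2 : 11 * η ≤ ε := by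
    have := min_le_right (1 / 2 : ℝ) (ε / 11)
    rw [← hη] at this
    linarith
  have h1 := Helper507.PNT.pi_tendsto
  have h2 := (h1.eventually (Icc_mem_nhds (show 1 - η < 1 by linarith) (show 1 < 1 + η by linarith)))
  obtain ⟨u₀, hu₀⟩ := Filter.eventually_atTop.1 h2
  have hlog := Real.tendsto_log_atTop
  have e1 : ∀ᶠ x : ℝ in Filter.atTop, Real.log 2 ≤ η * Real.log x := by
    have := (hlog.const_mul_atTop hη0).eventually_ge_atTop (Real.log 2)
    exact this
  have e2 : ∀ᶠ x : ℝ in Filter.atTop, -Real.log η ≤ η * Real.log x := by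
    have := (hlog.const_mul_atTop hη0).eventually_ge_atTop (-Real.log η)
    exact this
  have e3 : ∀ᶠ x : ℝ in Filter.atTop, u₀ ≤ η * x :=
    (Filter.tendsto_id.const_mul_atTop hη0).eventually_ge_atTop u₀
  have e4 : ∀ᶠ x : ℝ in Filter.atTop, u₀ ≤ x := Filter.eventually_ge_atTop u₀
  have e5 : ∀ᶠ x : ℝ in Filter.atTop, (3 : ℝ) ≤ x := Filter.eventually_ge_atTop 3
  obtain ⟨x₀, hx₀⟩ := Filter.eventually_atTop.1
    (tendsto_natCast_atTop_atTop (R := ℝ) |>.eventually (e1.and (e2.and (e3.and (e4.and e5)))))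
  refine ⟨x₀, fun x hx j hj => ?_⟩
  obtain ⟨f1, f2, f3, f4, f5⟩ := hx₀ x hx
  have hx3 : (0 : ℝ) < x := by linarith
  have hlx : 0 < Real.log x := Real.log_pos (by linarith)
  have hjx : (j : ℝ) ≤ x := by exact_mod_cast hj
  have hj0 : (0 : ℝ) ≤ j := Nat.cast_nonneg j
  -- lower bound
  have g1 : (1 - η) / (1 + η) * ((x + j) / Real.log x) ≤ Nat.primeCounting (x + j) := by
    have h3 := (hu₀ ((x + j : ℕ) : ℝ) (by push_cast; linarith)).1
    rw [Nat.floor_natCast] at h3
    have h4 : Real.log ((x + j : ℕ) : ℝ) ≤ (1 + η) * Real.log x := by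
      calc Real.log ((x + j : ℕ) : ℝ) ≤ Real.log (2 * x) := by
            apply Real.log_le_log
            · push_cast; linarith
            · push_cast; linarith
        _ = Real.log 2 + Real.log x := Real.log_mul (by norm_num) hx3.ne'
        _ ≤ _ := by linarith
    have h5 : 0 < ((x + j : ℕ) : ℝ) := by push_cast; linarith
    have h6 : (1 - η) * ((x + j : ℕ) : ℝ) ≤ (Nat.primeCounting (x + j) : ℝ) * Real.log ((x + j : ℕ) : ℝ) := by
      rw [le_div_iff₀ h5] at h3
      exact h3
    have h7 : (Nat.primeCounting (x + j) : ℝ) * Real.log ((x + j : ℕ) : ℝ) ≤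
        (Nat.primeCounting (x + j) : ℝ) * ((1 + η) * Real.log x) :=
      mul_le_mul_of_nonneg_left h4 (Nat.cast_nonneg _)
    have h8 : (1 - η) * ((x : ℝ) + j) ≤ (Nat.primeCounting (x + j) : ℝ) * ((1 + η) * Real.log x) := by
      have e0 : (1 - η) * ((x : ℝ) + j) = (1 - η) * ((x + j : ℕ) : ℝ) := by push_cast; ring
      rw [e0]
      exact h6.trans h7
    rw [div_mul_div_comm, div_le_iff₀ (by positivity)]
    exact h8
  -- upper bound
  have g2 : (Nat.primeCounting j : ℝ) ≤ (1 + η) / (1 - η) * ((j + η * x) / Real.log x) := by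
    set w : ℝ := max (j : ℝ) (η * x) with hw
    have hw1 : η * x ≤ w := le_max_right _ _
    have hw2 : (j : ℝ) ≤ w := le_max_left _ _
    have hw3 : w ≤ j + η * x := max_le (by nlinarith) (by linarith)
    have hw0 : 0 < w := lt_of_lt_of_le (by positivity) hw1
    have h3 := (hu₀ w (by linarith)).2
    have h4 : (1 - η) * Real.log x ≤ Real.log w := by
      calc (1 - η) * Real.log x ≤ Real.log η + Real.log x := by linarith
        _ = Real.log (η * x) := (Real.log_mul hη0.ne' hx3.ne').symm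
        _ ≤ Real.log w := Real.log_le_log (by positivity) hw1
    have h5 : (Nat.primeCounting j : ℝ) ≤ Nat.primeCounting ⌊w⌋₊ := by
      exact_mod_cast Nat.monotone_primeCounting (Nat.le_floor hw2)
    rw [div_le_iff₀ hw0] at h3
    have h6 : (Nat.primeCounting j : ℝ) * ((1 - η) * Real.log x) ≤ (1 + η) * w := by
      calc (Nat.primeCounting j : ℝ) * ((1 - η) * Real.log x) ≤
          (Nat.primeCounting ⌊w⌋₊ : ℝ) * Real.log w := by
            apply mul_le_mul h5 h4
            · have : 0 < 1 - η := by linarith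
              positivity
            · positivity
        _ ≤ _ := h3
    have h7 : 0 < 1 - η := by linarith
    rw [div_mul_div_comm, le_div_iff₀ (by positivity)]
    nlinarith
  have k1 : 1 - 2 * η ≤ (1 - η) / (1 + η) := by
    rw [le_div_iff₀ (by linarith)]; nlinarith
  have k2 : (1 + η) / (1 - η) ≤ 1 + 4 * η := by
    rw [div_le_iff₀ (by linarith)]; nlinarith
  have k3 : (1 - 2 * η) * ((x + j) / Real.log x) ≤ (1 - η) / (1 + η) * ((x + j) / Real.log x) :=
    mul_le_mul_of_nonneg_right k1 (by positivity)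
  have k4 : (1 + η) / (1 - η) * ((j + η * x) / Real.log x) ≤ (1 + 4 * η) * ((j + η * x) / Real.log x) :=
    mul_le_mul_of_nonneg_right k2 (by positivity)
  have k5 : (1 - ε) * (x / Real.log x) ≤ (1 - 2 * η) * ((x + j) / Real.log x) -
      (1 + 4 * η) * ((j + η * x) / Real.log x) := by
    have e : (1 - 2 * η) * ((x + j) / Real.log x) - (1 + 4 * η) * ((j + η * x) / Real.log x) -
        (1 - ε) * (x / Real.log x) =
        ((1 - 2 * η) * (x + j) - (1 + 4 * η) * (j + η * x) - (1 - ε) * x) / Real.log x := by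
      field_simp
    have e2 : 0 ≤ (1 - 2 * η) * ((x : ℝ) + j) - (1 + 4 * η) * (j + η * x) - (1 - ε) * x := by
      have m1 : η * j ≤ η * x := mul_le_mul_of_nonneg_left hjx hη0.le
      have m2 : η * (η * x) ≤ (1 / 2) * (η * x) := mul_le_mul_of_nonneg_right hη1 (by positivity)
      have m3 : 11 * η * x ≤ ε * x := mul_le_mul_of_nonneg_right hη2 hx3.le
      nlinarith
    have e3 := div_nonneg e2 hlx.le
    linarith
  linarith

lemma card_shift_prime (x j : ℕ) :
    #{n ∈ Icc 1 x | (n + j).Prime} + Nat.primeCounting j = Nat.primeCounting (x + j) := by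
  induction x with
  | zero => simp
  | succ x ih =>
    have e : Icc 1 (x + 1) = insert (x + 1) (Icc 1 x) := by
      ext k; simp only [mem_Icc, mem_insert]; omega
    have e2 : Nat.primeCounting (x + 1 + j) = Nat.primeCounting (x + j) + if (x + 1 + j).Prime then 1 else 0 := by
      unfold Nat.primeCounting Nat.primeCounting'
      have : x + 1 + j + 1 = (x + j + 1) + 1 := by ring
      rw [this, Nat.count_succ]
      have h2 : x + j + 1 = x + 1 + j := by ring
      rw [h2]
    rw [e, filter_insert, e2]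
    split_ifs with h
    · rw [card_insert_of_notMem (by simp)]
      omega
    · omega

/-- number of primes in `(n, n + H]` -/
def winCount (H n : ℕ) : ℕ := #{j ∈ Icc 1 H | (n + j).Prime}

theorem sum_winCount (ε : ℝ) (hε : 0 < ε) : ∃ x₀ : ℕ, ∀ x : ℕ, x₀ ≤ x → ∀ H : ℕ, H ≤ x →
    (1 - ε) * (H * (x / Real.log x)) ≤ ∑ n ∈ Icc 1 x, (winCount H n : ℝ) := by
  obtain ⟨x₀, hx₀⟩ := pnt_window ε hε
  refine ⟨x₀, fun x hx H hH => ?_⟩
  have h1 : ∑ n ∈ Icc 1 x, winCount H n = ∑ j ∈ Icc 1 H, #{n ∈ Icc 1 x | (n + j).Prime} := by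
    unfold winCount
    simp_rw [card_filter]
    rw [sum_comm]
  have h2 : ∑ n ∈ Icc 1 x, (winCount H n : ℝ) = ∑ j ∈ Icc 1 H, ((#{n ∈ Icc 1 x | (n + j).Prime} : ℕ) : ℝ) := by
    exact_mod_cast h1
  rw [h2]
  calc (1 - ε) * (H * (x / Real.log x)) = ∑ j ∈ Icc 1 H, (1 - ε) * (x / Real.log x) := by
        rw [sum_const, Nat.card_Icc, Nat.add_sub_cancel, nsmul_eq_mul]; ring
    _ ≤ _ := by
        apply sum_le_sum
        intro j hj
        have h3 := hx₀ x hx j ((mem_Icc.1 hj).2.trans hH)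
        have h4 := card_shift_prime x j
        have h5 : ((#{n ∈ Icc 1 x | (n + j).Prime} : ℕ) : ℝ) + Nat.primeCounting j = Nat.primeCounting (x + j) := by
          exact_mod_cast h4
        linarith

lemma card_injective (r : ℕ) (A : Finset ℕ) :
    #{b ∈ Fintype.piFinset (fun _ : Fin r => A) | Function.Injective b} = (#A).descFactorial r := by
  classical
  have h1 : (Fintype.piFinset (fun _ : Fin r => A)).filter (fun b => Function.Injective b) =
      (univ : Finset (Fin r ↪ A)).image (fun e i => (e i : ℕ)) := by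
    ext b
    simp only [mem_filter, Fintype.mem_piFinset, mem_image, mem_univ, true_and]
    constructor
    · rintro ⟨h1, h2⟩
      refine ⟨⟨fun i => ⟨b i, h1 i⟩, fun i j h => h2 (by simpa using h)⟩, rfl⟩
    · rintro ⟨e, rfl⟩
      exact ⟨fun i => (e i).2, fun i j h => e.injective (Subtype.ext h)⟩
  rw [h1, card_image_of_injective]
  · rw [card_univ, Fintype.card_embedding_eq]
    simp
  · intro e e' h
    ext i
    exact congrFun h i

theorem sum_tupleCount (r x H : ℕ) :
    ∑ b ∈ (Fintype.piFinset (fun _ : Fin r => Icc 1 H)).filter (fun b => Function.Injective b), tupleCount b x =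
      ∑ n ∈ Icc 1 x, (winCount H n).descFactorial r := by
  classical
  unfold tupleCount
  simp_rw [card_filter]
  rw [sum_comm]
  apply sum_congr rfl
  intro n _
  rw [← card_filter, filter_filter]
  unfold winCount
  rw [← card_injective]
  congr 1
  ext b
  simp only [mem_filter, Fintype.mem_piFinset]
  constructor
  · rintro ⟨h1, h2, h3⟩
    exact ⟨fun i => ⟨h1 i, h3 i⟩, h2⟩
  · rintro ⟨h1, h2⟩
    exact ⟨fun i => (h1 i).1, h2, fun i => (h1 i).2⟩

/-- Jensen lower bound -/
theorem jensen_lower (r : ℕ) (hr : 1 ≤ r) (x H : ℕ) (hx : 1 ≤ x) (μ₀ lam : ℝ) (hlam : (r : ℝ) - 1 < lam) (hlam0 : 0 < lam)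
    (hμ : lam ≤ μ₀) (hN : μ₀ * x ≤ ∑ n ∈ Icc 1 x, (winCount H n : ℝ)) :
    x * (μ₀ ^ r * ∏ i ∈ range r, (1 - (i : ℝ) / lam)) ≤
      ∑ n ∈ Icc 1 x, ((winCount H n).descFactorial r : ℝ) := by
  have hx0 : (0 : ℝ) < x := by exact_mod_cast hx
  set μ : ℝ := ∑ n ∈ Icc 1 x, (1 / (x : ℝ)) * (winCount H n : ℝ) with hμdef
  have hμ1 : μ₀ ≤ μ := by
    rw [hμdef, ← mul_sum, one_div, ← div_eq_inv_mul, le_div_iff₀ hx0]
    exact hN
  have hμ0 : 0 < μ₀ := lt_of_lt_of_le hlam0 hμ
  have h1 := descPochhammer_eval_le_sum_descFactorial (n := r) (by omega) (t := Icc 1 x)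
    (fun n => winCount H n) (fun _ => 1 / (x : ℝ)) (fun _ _ => by positivity)
    (by rw [sum_const, Nat.card_Icc, Nat.add_sub_cancel, nsmul_eq_mul]; field_simp)
    (by rw [← hμdef]; linarith)
  rw [← hμdef] at h1
  have h2 : (descPochhammer ℝ r).eval μ₀ ≤ (descPochhammer ℝ r).eval μ :=
    monotoneOn_descPochhammer_eval r (by rw [Set.mem_Ici]; linarith) (by rw [Set.mem_Ici]; linarith) hμ1
  have h3 : μ₀ ^ r * ∏ i ∈ range r, (1 - (i : ℝ) / lam) ≤ (descPochhammer ℝ r).eval μ₀ := by
    rw [descPochhammer_eval_eq_prod_range]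
    calc μ₀ ^ r * ∏ i ∈ range r, (1 - (i : ℝ) / lam) = ∏ i ∈ range r, (μ₀ * (1 - (i : ℝ) / lam)) := by
          rw [prod_mul_distrib, prod_const, card_range]
      _ ≤ _ := by
          apply prod_le_prod
          · intro i hi
            have hi1 : (i : ℝ) ≤ r - 1 := by
              have : i + 1 ≤ r := mem_range.1 hi
              have : ((i + 1 : ℕ) : ℝ) ≤ r := by exact_mod_cast this
              push_cast at this
              linarith
            have : (i : ℝ) / lam ≤ 1 := by rw [div_le_one hlam0]; linarith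
            have : 0 ≤ 1 - (i : ℝ) / lam := by linarith
            positivity
          · intro i _
            have hi0 : (0 : ℝ) ≤ i := Nat.cast_nonneg i
            have : (i : ℝ) ≤ μ₀ * (i / lam) := by
              rw [← mul_div_assoc, le_div_iff₀ hlam0]
              nlinarith
            linarith
  have h4 : ∑ n ∈ Icc 1 x, (1 / (x : ℝ)) * ((winCount H n).descFactorial r : ℝ) =
      (∑ n ∈ Icc 1 x, ((winCount H n).descFactorial r : ℝ)) / x := by
    rw [← mul_sum]; ring
  rw [h4, le_div_iff₀ hx0] at h1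
  have h5 : μ₀ ^ r * (∏ i ∈ range r, (1 - (i : ℝ) / lam)) * x ≤ (descPochhammer ℝ r).eval μ * x :=
    mul_le_mul_of_nonneg_right (h3.trans h2) hx0.le
  linarith

end Pool.Agent.H386R2.HL
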