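import Mathlib
import Pool.Agent.H386R2.HL.Defs

namespace Pool.Agent.H386R2.HL
open Finset

lemma nu_le_r {r : ℕ} (a : Fin r → ℕ) (p : ℕ) : nu a p ≤ r := by
  unfold nu
  calc _ ≤ #(univ : Finset (Fin r)) := card_image_le
    _ = r := by simp

lemma nu_le_p {r : ℕ} (a : Fin r → ℕ) {p : ℕ} (hp : 0 < p) : nu a p ≤ p := by
  unfold nu
  calc _ ≤ #(range p) := card_le_card (by
        intro v hv
        rw [mem_image] at hv
        obtain ⟨i, _, rfl⟩ := hv
        exact mem_range.2 (Nat.mod_lt _ hp))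
    _ = p := card_range p

/-- the pairs `i < j` -/
def prs (r : ℕ) : Finset (Fin r × Fin r) := univ.filter (fun q => q.1 < q.2)

lemma r_le_nu_add {r : ℕ} (a : Fin r → ℕ) (p : ℕ) :
    r ≤ nu a p + #{q ∈ prs r | a q.1 % p = a q.2 % p} := by
  classical
  set B : Finset (Fin r) := univ.filter (fun j => ∃ i, i < j ∧ a i % p = a j % p) with hB
  have h1 : #(univ : Finset (Fin r)) = #B + #(univ.filter (fun j => ¬ ∃ i, i < j ∧ a i % p = a j % p)) := by
    rw [hB, card_filter_add_card_filter_not]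
  have h2 : #(univ.filter (fun j => ¬ ∃ i, i < j ∧ a i % p = a j % p)) ≤ nu a p := by
    unfold nu
    apply card_le_card_of_injOn (fun i => a i % p)
    · intro i _
      exact mem_coe.2 (mem_image_of_mem _ (mem_univ _))
    · intro i hi j hj hij
      rw [mem_coe, mem_filter] at hi hj
      by_contra hne
      rcases lt_or_gt_of_ne hne with h | h
      · exact hj.2 ⟨i, h, hij⟩
      · exact hi.2 ⟨j, h, hij.symm⟩
  have h3 : #B ≤ #{q ∈ prs r | a q.1 % p = a q.2 % p} := by
    have hch : ∀ j ∈ B, ∃ i, i < j ∧ a i % p = a j % p := fun j hj => (mem_filter.1 hj).2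
    choose! f hf using hch
    apply card_le_card_of_injOn (fun j => (f j, j))
    · intro j hj
      have := hf j hj
      simp only [prs, coe_filter, mem_filter, mem_univ, true_and, Set.mem_ofPred_eq]
      exact this
    · intro i _ j _ hij
      exact (Prod.ext_iff.1 hij).2
  rw [card_univ, Fintype.card_fin] at h1
  omega

lemma mod_eq_iff_dvd_dist (u v p : ℕ) : u % p = v % p ↔ p ∣ Nat.dist u v := by
  rcases le_total u v with h | h
  · rw [Nat.dist_eq_sub_of_le h, ← Nat.modEq_iff_dvd' h]; rfl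
  · rw [Nat.dist_comm, Nat.dist_eq_sub_of_le h, ← Nat.modEq_iff_dvd' h]
    exact ⟨fun h => h.symm, fun h => h.symm⟩

lemma one_sub_pos {p : ℕ} (hp : p.Prime) : (0 : ℝ) < 1 - 1 / (p : ℝ) := by
  have h2 : (2 : ℝ) ≤ p := by exact_mod_cast hp.two_le
  have : 1 / (p : ℝ) ≤ 1 / 2 := one_div_le_one_div_of_le (by norm_num) h2
  linarith

lemma one_le_inv {p : ℕ} (hp : p.Prime) : (1 : ℝ) ≤ (1 - 1 / (p : ℝ))⁻¹ := by
  have h1 := one_sub_pos hp
  have h2 : 0 < 1 / (p : ℝ) := by have := hp.pos; positivity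
  exact (one_le_inv₀ h1).2 (by linarith)

lemma localFactor_nonneg {r : ℕ} (a : Fin r → ℕ) {p : ℕ} (hp : p.Prime) : 0 ≤ localFactor a p := by
  unfold localFactor
  have h1 := one_sub_pos hp
  have h2 : (nu a p : ℝ) / p ≤ 1 := by
    rw [div_le_one (by exact_mod_cast hp.pos)]
    exact_mod_cast nu_le_p a hp.pos
  have h3 : 0 ≤ 1 - (nu a p : ℝ) / p := by linarith
  positivity

lemma inv_pow_mul_pow {u : ℝ} (hu : 0 < u) {r m : ℕ} (h : m ≤ r) :
    (u⁻¹) ^ r * u ^ m = (u⁻¹) ^ (r - m) := by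
  obtain ⟨k, rfl⟩ := Nat.exists_eq_add_of_le h
  have : m + k - m = k := by omega
  rw [this, pow_add, mul_comm, ← mul_assoc, ← mul_pow, mul_inv_cancel₀ hu.ne', one_pow, one_mul]

/-- local factor bound by the colliding pairs -/
lemma localFactor_le {r : ℕ} (a : Fin r → ℕ) {p : ℕ} (hp : p.Prime) :
    localFactor a p ≤ ∏ q ∈ prs r, if p ∣ Nat.dist (a q.1) (a q.2) then (1 - 1 / (p : ℝ))⁻¹ else 1 := by
  have h1 := one_sub_pos hp
  have h1' := one_le_inv hp
  have hb : 1 - (nu a p : ℝ) / p ≤ (1 - 1 / (p : ℝ)) ^ (nu a p) := by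
    have := one_add_mul_le_pow (a := -(1 / (p : ℝ))) (by linarith) (nu a p)
    have e1 : (1 : ℝ) + (nu a p : ℝ) * -(1 / (p : ℝ)) = 1 - (nu a p : ℝ) / p := by ring
    have e2 : (1 : ℝ) + -(1 / (p : ℝ)) = 1 - 1 / (p : ℝ) := by ring
    rw [e1, e2] at this
    exact this
  rw [prod_ite, prod_const_one, mul_one, prod_const]
  have hset : (prs r).filter (fun q => p ∣ Nat.dist (a q.1) (a q.2)) =
      {q ∈ prs r | a q.1 % p = a q.2 % p} := by
    ext q
    simp only [mem_filter, mod_eq_iff_dvd_dist]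
  rw [hset]
  have hr := r_le_nu_add a p
  have hnr := nu_le_r a p
  calc localFactor a p ≤ ((1 - 1 / (p : ℝ))⁻¹) ^ r * (1 - 1 / (p : ℝ)) ^ (nu a p) := by
        unfold localFactor
        exact mul_le_mul_of_nonneg_left hb (by positivity)
    _ = ((1 - 1 / (p : ℝ))⁻¹) ^ (r - nu a p) := inv_pow_mul_pow h1 hnr
    _ ≤ _ := pow_le_pow_right₀ h1' (by omega)

lemma localFactor_le_pow {r : ℕ} (a : Fin r → ℕ) {p : ℕ} (hp : p.Prime) :
    localFactor a p ≤ ((1 - 1 / (p : ℝ))⁻¹) ^ r := by
  have h1 := one_sub_pos hp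
  unfold localFactor
  have h2 : 0 ≤ (nu a p : ℝ) / p := by positivity
  calc _ ≤ ((1 - 1 / (p : ℝ))⁻¹) ^ r * 1 := by
        apply mul_le_mul_of_nonneg_left _ (by positivity)
        linarith
    _ = _ := mul_one _

lemma nu_eq_of_large {r : ℕ} (a : Fin r → ℕ) (ha : Function.Injective a) {p : ℕ}
    (hp : ∀ i, a i < p) : nu a p = r := by
  unfold nu
  rw [card_image_of_injective]
  · simp
  · intro i j hij
    simp only at hij
    rw [Nat.mod_eq_of_lt (hp i), Nat.mod_eq_of_lt (hp j)] at hij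
    exact ha hij

lemma abs_localFactor_sub_one {r : ℕ} (a : Fin r → ℕ) (ha : Function.Injective a) {p : ℕ}
    (hp : p.Prime) (hl : ∀ i, a i < p) (hr : r ≤ p) : |localFactor a p - 1| ≤ (r : ℝ) ^ 2 * (1 / (p : ℝ) ^ 2) := by
  have h1 := one_sub_pos hp
  have hp0 : (0 : ℝ) < p := by exact_mod_cast hp.pos
  have hnu := nu_eq_of_large a ha hl
  unfold localFactor
  rw [hnu]
  have hrp : (r : ℝ) / p ≤ 1 := by rw [div_le_one hp0]; exact_mod_cast hr
  have hup : ((1 - 1 / (p : ℝ))⁻¹) ^ r * (1 - (r : ℝ) / p) ≤ 1 := by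
    have := one_add_mul_le_pow (a := -(1 / (p : ℝ))) (by linarith) r
    have e1 : (1 : ℝ) + (r : ℝ) * -(1 / (p : ℝ)) = 1 - (r : ℝ) / p := by ring
    have e2 : (1 : ℝ) + -(1 / (p : ℝ)) = 1 - 1 / (p : ℝ) := by ring
    rw [e1, e2] at this
    rw [inv_pow, inv_mul_le_iff₀ (by positivity), mul_one]
    exact this
  have hlow : 1 - (r : ℝ) ^ 2 * (1 / (p : ℝ) ^ 2) ≤ ((1 - 1 / (p : ℝ))⁻¹) ^ r * (1 - (r : ℝ) / p) := by
    have h3 : 1 + 1 / (p : ℝ) ≤ (1 - 1 / (p : ℝ))⁻¹ := by
      rw [← one_div, le_div_iff₀ h1]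
      have : 0 ≤ (1 / (p : ℝ)) ^ 2 := by positivity
      nlinarith
    have h4 : 1 + (r : ℝ) / p ≤ ((1 - 1 / (p : ℝ))⁻¹) ^ r := by
      have h50 : (0 : ℝ) ≤ 1 / (p : ℝ) := by positivity
      have h5 := one_add_mul_le_pow (a := (1 / (p : ℝ))) (by linarith) r
      calc 1 + (r : ℝ) / p = 1 + (r : ℝ) * (1 / (p : ℝ)) := by ring
        _ ≤ (1 + 1 / (p : ℝ)) ^ r := h5
        _ ≤ _ := pow_le_pow_left₀ (by positivity) h3 r
    calc 1 - (r : ℝ) ^ 2 * (1 / (p : ℝ) ^ 2) = (1 + (r : ℝ) / p) * (1 - (r : ℝ) / p) := by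
          field_simp; ring
      _ ≤ _ := mul_le_mul_of_nonneg_right h4 (by linarith)
  rw [abs_le]
  constructor
  · linarith
  · have : (0 : ℝ) ≤ (r : ℝ) ^ 2 * (1 / (p : ℝ) ^ 2) := by positivity
    linarith

theorem summable_localFactor_sub_one {r : ℕ} (a : Fin r → ℕ) (ha : Function.Injective a) :
    Summable (fun p : Nat.Primes => localFactor a p - 1) := by
    have hg : Summable (fun p : Nat.Primes => (r : ℝ) ^ 2 * (1 / ((p : ℕ) : ℝ) ^ 2)) := by
      apply Summable.mul_left
      exact (Real.summable_one_div_nat_pow.2 (by norm_num : 1 < 2)).comp_injective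
        (Subtype.val_injective)
    apply Summable.of_norm_bounded_eventually hg
    have hfin : {p : Nat.Primes | (p : ℕ) ≤ r + ∑ i, a i}.Finite := by
      apply Set.Finite.of_finite_image (f := (fun p : Nat.Primes => (p : ℕ)))
      · apply (Set.finite_Iic (r + ∑ i, a i)).subset
        rintro _ ⟨p, hp, rfl⟩
        exact hp
      · exact Subtype.val_injective.injOn
    rw [Filter.eventually_cofinite]
    apply hfin.subset
    intro p hp
    simp only [Set.mem_ofPred_eq] at hp ⊢
    by_contra hcon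
    push Not at hcon
    apply hp
    rw [Real.norm_eq_abs]
    apply abs_localFactor_sub_one a ha p.2
    · intro i
      have : a i ≤ ∑ i, a i := single_le_sum (fun _ _ => Nat.zero_le _) (mem_univ i)
      omega
    · omega

theorem multipliable_localFactor {r : ℕ} (a : Fin r → ℕ) (ha : Function.Injective a) :
    Multipliable (fun p : Nat.Primes => localFactor a p) := by
  have := Real.multipliable_one_add_of_summable (summable_localFactor_sub_one a ha)
  simpa using this

lemma localFactor_pos {r : ℕ} {a : Fin r → ℕ} (ha : Admissible a) {p : ℕ} (hp : p.Prime) :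
    0 < localFactor a p := by
  unfold localFactor
  have h1 := one_sub_pos hp
  have hp0 : (0 : ℝ) < p := by exact_mod_cast hp.pos
  have h2 : (nu a p : ℝ) / p < 1 := by
    rw [div_lt_one hp0]
    exact_mod_cast ha p hp
  have h3 : 0 < 1 - (nu a p : ℝ) / p := by linarith
  positivity

theorem singularSeries_pos {r : ℕ} {a : Fin r → ℕ} (ha : Function.Injective a) (hadm : Admissible a) :
    0 < singularSeries a := by
  have hs := Real.summable_log_one_add_of_summable (summable_localFactor_sub_one a ha)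
  have hs' : Summable (fun p : Nat.Primes => Real.log (localFactor a p)) := by simpa using hs
  have := Real.rexp_tsum_eq_tprod (fun p : Nat.Primes => localFactor_pos hadm p.2) hs'
  unfold singularSeries
  rw [← this]
  exact Real.exp_pos _

theorem singularSeries_nonneg {r : ℕ} {a : Fin r → ℕ} (ha : Function.Injective a) :
    0 ≤ singularSeries a := by
  have hm := (multipliable_localFactor a ha).hasProd
  refine ge_of_tendsto hm ?_
  filter_upwards with s
  exact prod_nonneg fun p _ => localFactor_nonneg a p.2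

lemma prod_mono_set {S T : Finset ℕ} {f : ℕ → ℝ} (h : S ⊆ T) (hf : ∀ x ∈ T, 1 ≤ f x) :
    ∏ x ∈ S, f x ≤ ∏ x ∈ T, f x := by
  rw [← prod_sdiff h]
  have h1 : 1 ≤ ∏ x ∈ T \ S, f x := by
    apply Finset.prod_induction _ (fun x : ℝ => 1 ≤ x)
      (fun a b ha hb => one_le_mul_of_one_le_of_one_le ha hb) le_rfl
    intro x hx
    exact hf x (mem_sdiff.1 hx).1
  have h2 : 0 ≤ ∏ x ∈ S, f x := prod_nonneg fun x hx => zero_le_one.trans (hf x (h hx))
  nlinarith

/-- `t_y(n) = ∏_{p | n, p > y} (1 - 1/p)⁻¹` -/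
noncomputable def tt (y n : ℕ) : ℝ := ∏ p ∈ n.primeFactors.filter (fun p => y < p), (1 - 1 / (p : ℝ))⁻¹

lemma one_le_tt (y n : ℕ) : 1 ≤ tt y n := by
  unfold tt
  apply Finset.prod_induction _ (fun x : ℝ => 1 ≤ x) (fun a b ha hb => one_le_mul_of_one_le_of_one_le ha hb) le_rfl
  intro p hp
  exact one_le_inv (Nat.prime_of_mem_primeFactors (mem_filter.1 hp).1)

/-- truncated singular series -/
noncomputable def sy {r : ℕ} (a : Fin r → ℕ) (y : ℕ) : ℝ := ∏ p ∈ (y + 1).primesBelow, localFactor a p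

lemma sy_nonneg {r : ℕ} (a : Fin r → ℕ) (y : ℕ) : 0 ≤ sy a y :=
  prod_nonneg fun _ hp => localFactor_nonneg a (Nat.prime_of_mem_primesBelow hp)

theorem singularSeries_le {r : ℕ} (a : Fin r → ℕ) (ha : Function.Injective a) (y : ℕ) :
    singularSeries a ≤ sy a y * ∏ q ∈ prs r, tt y (Nat.dist (a q.1) (a q.2)) := by
  have hm := (multipliable_localFactor a ha).hasProd
  unfold singularSeries
  set s0 : Finset Nat.Primes := (y + 1).primesBelow.preimage (fun p : Nat.Primes => (p : ℕ))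
    Subtype.val_injective.injOn with hs0
  have hs0' : ∀ p : Nat.Primes, p ∈ s0 ↔ (p : ℕ) ≤ y := by
    intro p
    rw [hs0, mem_preimage, Nat.mem_primesBelow]
    constructor
    · rintro ⟨h, _⟩; omega
    · intro h; exact ⟨by omega, p.2⟩
  refine le_of_tendsto hm ?_
  filter_upwards [Filter.eventually_ge_atTop s0] with s hs
  have hsplit : ∏ p ∈ s, localFactor a (p : ℕ) =
      (∏ p ∈ s0, localFactor a (p : ℕ)) * ∏ p ∈ s \ s0, localFactor a (p : ℕ) := by
    rw [mul_comm, prod_sdiff hs]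
  rw [hsplit]
  have h1 : ∏ p ∈ s0, localFactor a (p : ℕ) = sy a y := by
    unfold sy
    rw [hs0]
    refine prod_preimage (fun p : Nat.Primes => (p : ℕ)) _ Subtype.val_injective.injOn
      (fun p : ℕ => localFactor a p) ?_
    intro p hp hp2
    exact absurd ⟨⟨p, Nat.prime_of_mem_primesBelow hp⟩, rfl⟩ hp2
  rw [h1]
  apply mul_le_mul_of_nonneg_left _ (sy_nonneg a y)
  calc ∏ p ∈ s \ s0, localFactor a (p : ℕ) ≤
      ∏ p ∈ s \ s0, ∏ q ∈ prs r, (if (p : ℕ) ∣ Nat.dist (a q.1) (a q.2) then (1 - 1 / ((p : ℕ) : ℝ))⁻¹ else 1) :=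
        prod_le_prod (fun p _ => localFactor_nonneg a p.2) (fun p _ => localFactor_le a p.2)
    _ = ∏ q ∈ prs r, ∏ p ∈ s \ s0, (if (p : ℕ) ∣ Nat.dist (a q.1) (a q.2) then (1 - 1 / ((p : ℕ) : ℝ))⁻¹ else 1) :=
        prod_comm
    _ ≤ ∏ q ∈ prs r, tt y (Nat.dist (a q.1) (a q.2)) := by
        apply prod_le_prod
        · intro q _
          apply prod_nonneg
          intro p _
          split_ifs
          · exact zero_le_one.trans (one_le_inv p.2)
          · exact zero_le_one
        · intro q hq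
          have hq' : q.1 < q.2 := (mem_filter.1 hq).2
          have hne : Nat.dist (a q.1) (a q.2) ≠ 0 := by
            intro h
            exact hq'.ne (ha (Nat.eq_of_dist_eq_zero h))
          rw [prod_ite, prod_const_one, mul_one]
          unfold tt
          have e : ∏ p ∈ (s \ s0).filter (fun p : Nat.Primes => (p : ℕ) ∣ Nat.dist (a q.1) (a q.2)),
              (1 - 1 / ((p : ℕ) : ℝ))⁻¹ =
              ∏ p ∈ ((s \ s0).filter (fun p : Nat.Primes => (p : ℕ) ∣ Nat.dist (a q.1) (a q.2))).image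
                (fun p : Nat.Primes => (p : ℕ)), (1 - 1 / (p : ℝ))⁻¹ := by
            rw [prod_image]
            intro x _ z _ hxz
            exact Subtype.val_injective hxz
          rw [e]
          apply prod_mono_set
          · intro p hp
            rw [mem_image] at hp
            obtain ⟨p', hp', rfl⟩ := hp
            rw [mem_filter, mem_sdiff, hs0'] at hp'
            rw [mem_filter, Nat.mem_primeFactors]
            exact ⟨⟨p'.2, hp'.2, hne⟩, by omega⟩
          · intro p hp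
            exact one_le_inv (Nat.prime_of_mem_primeFactors (mem_filter.1 hp).1)

end Pool.Agent.H386R2.HL
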