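import Mathlib
import Pool.Agent.H386R2.HL.A

namespace Pool.Agent.H386R2.HL
open Finset

/-- residues `m` mod `N` such that all `m + b_i` are coprime to `N` -/
def gg {r : ℕ} (N : ℕ) (b : Fin r → ℕ) : ℕ := #{m ∈ range N | ∀ i, Nat.Coprime N (m + b i)}

lemma coprime_mod_add (N m u : ℕ) : Nat.Coprime N (m % N + u) ↔ Nat.Coprime N (m + u) := by
  have h : (m % N + u) ≡ (m + u) [MOD N] := (Nat.mod_modEq m N).add_right u
  unfold Nat.Coprime
  rw [Nat.gcd_comm N (m % N + u), Nat.gcd_comm N (m + u), h.gcd_eq]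

lemma gg_mul {r : ℕ} (b : Fin r → ℕ) {M N : ℕ} (hM : 0 < M) (hN : 0 < N) (h : Nat.Coprime M N) :
    gg (M * N) b = gg M b * gg N b := by
  classical
  unfold gg
  rw [← card_product]
  apply card_nbij' (fun m => (m % M, m % N)) (fun q => (Nat.chineseRemainder h q.1 q.2 : ℕ))
  · intro m hm
    rw [mem_coe, mem_filter] at hm
    rw [mem_coe, mem_product, mem_filter, mem_filter, mem_range, mem_range]
    refine ⟨⟨Nat.mod_lt _ hM, fun i => ?_⟩, ⟨Nat.mod_lt _ hN, fun i => ?_⟩⟩
    · rw [coprime_mod_add]; exact (hm.2 i).coprime_mul_right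
    · rw [coprime_mod_add]; exact (hm.2 i).coprime_mul_left
  · intro q hq
    rw [mem_coe, mem_product, mem_filter, mem_filter, mem_range, mem_range] at hq
    rw [mem_coe, mem_filter, mem_range]
    refine ⟨Nat.chineseRemainder_lt_mul h _ _ hM.ne' hN.ne', fun i => ?_⟩
    have h1 := (Nat.chineseRemainder h q.1 q.2).2
    refine Nat.Coprime.mul_left ?_ ?_
    · have h2 := hq.1.2 i
      unfold Nat.Coprime at h2 ⊢
      rw [Nat.gcd_comm, (h1.1.add_right (b i)).gcd_eq, Nat.gcd_comm]
      exact h2
    · have h2 := hq.2.2 i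
      unfold Nat.Coprime at h2 ⊢
      rw [Nat.gcd_comm, (h1.2.add_right (b i)).gcd_eq, Nat.gcd_comm]
      exact h2
  · intro m hm
    rw [mem_coe, mem_filter, mem_range] at hm
    have h1 := (Nat.chineseRemainder h (m % M) (m % N)).2
    have h2 : (Nat.chineseRemainder h (m % M) (m % N) : ℕ) ≡ m [MOD M * N] := by
      rw [← Nat.modEq_and_modEq_iff_modEq_mul h]
      exact ⟨h1.1.trans (Nat.mod_modEq _ _), h1.2.trans (Nat.mod_modEq _ _)⟩
    exact Nat.ModEq.eq_of_lt_of_lt h2 (Nat.chineseRemainder_lt_mul h _ _ hM.ne' hN.ne') hm.1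
  · intro q hq
    rw [mem_coe, mem_product, mem_filter, mem_filter, mem_range, mem_range] at hq
    have h1 := (Nat.chineseRemainder h q.1 q.2).2
    have e1 : (Nat.chineseRemainder h q.1 q.2 : ℕ) % M = q.1 := by
      have := h1.1
      unfold Nat.ModEq at this
      rw [this, Nat.mod_eq_of_lt hq.1.1]
    have e2 : (Nat.chineseRemainder h q.1 q.2 : ℕ) % N = q.2 := by
      have := h1.2
      unfold Nat.ModEq at this
      rw [this, Nat.mod_eq_of_lt hq.2.1]
    exact Prod.ext e1 e2

lemma gg_prime {r : ℕ} (b : Fin r → ℕ) {p : ℕ} (hp : p.Prime) : gg p b + nu b p = p := by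
  classical
  unfold gg
  have h1 : #{m ∈ range p | ¬ ∀ i, Nat.Coprime p (m + b i)} = nu b p := by
    unfold nu
    symm
    apply card_nbij (fun v => (p - v) % p)
    · intro v hv
      rw [mem_coe, mem_image] at hv
      obtain ⟨i, _, rfl⟩ := hv
      rw [mem_coe, mem_filter, mem_range]
      refine ⟨Nat.mod_lt _ hp.pos, ?_⟩
      intro hcon
      have h2 := hcon i
      rw [coprime_mod_add, hp.coprime_iff_not_dvd] at h2
      apply h2
      have h3 : b i % p < p := Nat.mod_lt _ hp.pos
      have h4 : p - b i % p + b i = p + p * (b i / p) := by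
        have h5 := Nat.mod_add_div (b i) p
        generalize p * (b i / p) = w at h5 ⊢
        omega
      rw [h4]
      exact Dvd.intro (1 + b i / p) (by ring)
    · intro u hu v hv huv
      rw [mem_coe, mem_image] at hu hv
      obtain ⟨i, _, rfl⟩ := hu
      obtain ⟨j, _, rfl⟩ := hv
      simp only at huv
      have h3 : b i % p < p := Nat.mod_lt _ hp.pos
      have h4 : b j % p < p := Nat.mod_lt _ hp.pos
      generalize b i % p = u at huv h3 ⊢
      generalize b j % p = v at huv h4 ⊢
      have key : ∀ w, w < p → (p - w) % p = if w = 0 then 0 else p - w := by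
        intro w hw
        split_ifs with h0
        · rw [h0, Nat.sub_zero, Nat.mod_self]
        · exact Nat.mod_eq_of_lt (by omega)
      rw [key u h3, key v h4] at huv
      split_ifs at huv with h7 h8 h8 <;> omega
    · intro m hm
      rw [mem_coe, mem_filter, mem_range] at hm
      obtain ⟨h2, h3⟩ := hm
      obtain ⟨i, hi⟩ := not_forall.1 h3
      rw [hp.coprime_iff_not_dvd, not_not] at hi
      refine ⟨b i % p, ?_, ?_⟩
      · exact mem_coe.2 (mem_image_of_mem _ (mem_univ i))
      · simp only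
        have h3 : b i % p < p := Nat.mod_lt _ hp.pos
        have h4 : p ∣ m + b i % p := by
          rw [Nat.dvd_iff_mod_eq_zero] at hi ⊢
          rw [← hi, Nat.add_mod, Nat.mod_mod, ← Nat.add_mod]
        obtain ⟨k, hk⟩ := h4
        rcases Nat.eq_zero_or_pos (b i % p) with h5 | h5
        · rw [h5, Nat.sub_zero, Nat.mod_self]
          rw [h5, add_zero] at hk
          rcases Nat.eq_zero_or_pos k with h6 | h6
          · rw [hk, h6, mul_zero]
          · have : p ≤ p * k := Nat.le_mul_of_pos_right _ h6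
            omega
        · have hk1 : k = 1 := by
            rcases Nat.lt_or_ge k 2 with h6 | h6
            · interval_cases k
              · omega
              · rfl
            · have : p * 2 ≤ p * k := Nat.mul_le_mul_left _ h6
              omega
          subst hk1
          rw [Nat.mod_eq_of_lt (by omega)]
          omega
  have h2 := card_filter_add_card_filter_not (s := range p) (fun m => ∀ i, Nat.Coprime p (m + b i))
  rw [h1, card_range] at h2
  exact h2

lemma prod_one_sub_nu {r : ℕ} (b : Fin r → ℕ) (s : Finset ℕ) (hs : ∀ p ∈ s, p.Prime) :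
    ∏ p ∈ s, (1 - (nu b p : ℝ) / p) = (gg (∏ p ∈ s, p) b : ℝ) / ((∏ p ∈ s, p : ℕ) : ℝ) := by
  classical
  induction s using Finset.induction_on with
  | empty =>
    simp [gg]
  | insert p s hps ih =>
    have hp := hs p (mem_insert_self _ _)
    have hs' : ∀ q ∈ s, q.Prime := fun q hq => hs q (mem_insert_of_mem hq)
    rw [prod_insert hps, prod_insert hps, ih hs', gg_mul b hp.pos]
    · have h1 := gg_prime b hp
      have h2 : (gg p b : ℝ) = p - nu b p := by
        have : ((gg p b + nu b p : ℕ) : ℝ) = p := by exact_mod_cast h1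
        push_cast at this
        linarith
      have hp0 : (p : ℝ) ≠ 0 := by exact_mod_cast hp.ne_zero
      have hP0 : ((∏ q ∈ s, q : ℕ) : ℝ) ≠ 0 := by
        have : ∏ q ∈ s, q ≠ 0 := prod_ne_zero_iff.2 fun q hq => (hs' q hq).ne_zero
        exact_mod_cast this
      push_cast at hP0 ⊢
      rw [h2]
      field_simp
    · exact prod_pos fun q hq => (hs' q hq).pos
    · apply Nat.Coprime.prod_right
      intro q hq
      rw [Nat.coprime_primes hp (hs' q hq)]
      rintro rfl
      exact hps hq

/-- sum over all `b ∈ [1,H]^r` of the truncated singular series -/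
theorem sum_sy_le (r y H : ℕ) :
    ∑ b ∈ Fintype.piFinset (fun _ : Fin r => Icc 1 H), sy b y ≤
      ((H : ℝ) + ((∏ p ∈ (y + 1).primesBelow, p : ℕ) : ℝ)) ^ r := by
  classical
  set P : ℕ := ∏ p ∈ (y + 1).primesBelow, p with hP
  have hPpos : 0 < P := prod_pos fun p hp => (Nat.prime_of_mem_primesBelow hp).pos
  have hPr : (0 : ℝ) < P := by exact_mod_cast hPpos
  have hphi : (Nat.totient P : ℝ) = P * ∏ p ∈ (y + 1).primesBelow, (1 - 1 / (p : ℝ)) := by
    have h1 : P.primeFactors = (y + 1).primesBelow := by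
      rw [hP]
      exact Nat.primeFactors_prod fun p hp => Nat.prime_of_mem_primesBelow hp
    have := Nat.totient_eq_mul_prod_factors P
    have h2 : ((Nat.totient P : ℚ) : ℝ) = ((P * ∏ p ∈ P.primeFactors, (1 - (p : ℚ)⁻¹) : ℚ) : ℝ) := by
      rw [this]
    push_cast at h2
    rw [h2, h1]
    simp only [one_div]
  have hphipos : (0 : ℝ) < Nat.totient P := by exact_mod_cast Nat.totient_pos.2 hPpos
  have hsy : ∀ b : Fin r → ℕ, sy b y = ((P : ℝ) / Nat.totient P) ^ r * ((gg P b : ℝ) / P) := by
    intro b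
    unfold sy localFactor
    rw [prod_mul_distrib, prod_one_sub_nu b _ (fun p hp => Nat.prime_of_mem_primesBelow hp), prod_pow,
      prod_inv_distrib, ← hP]
    congr 2
    rw [hphi]
    have h3 : (∏ p ∈ (y + 1).primesBelow, (1 - 1 / (p : ℝ))) ≠ 0 :=
      (prod_pos fun p hp => one_sub_pos (Nat.prime_of_mem_primesBelow hp)).ne'
    field_simp
  have hsum : ∑ b ∈ Fintype.piFinset (fun _ : Fin r => Icc 1 H), (gg P b : ℝ) =
      ∑ m ∈ range P, ((#{j ∈ Icc 1 H | Nat.Coprime P (m + j)} : ℕ) : ℝ) ^ r := by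
    have h1 : ∑ b ∈ Fintype.piFinset (fun _ : Fin r => Icc 1 H), gg P b =
        ∑ m ∈ range P, (#{j ∈ Icc 1 H | Nat.Coprime P (m + j)}) ^ r := by
      unfold gg
      simp_rw [card_filter]
      rw [sum_comm]
      apply sum_congr rfl
      intro m _
      rw [← card_filter, ← card_filter]
      have h2 : (Fintype.piFinset (fun _ : Fin r => Icc 1 H)).filter (fun b => ∀ i, Nat.Coprime P (m + b i)) =
          Fintype.piFinset (fun _ : Fin r => {j ∈ Icc 1 H | Nat.Coprime P (m + j)}) := by
        ext b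
        simp only [mem_filter, Fintype.mem_piFinset]
        exact forall_and.symm
      rw [h2, Fintype.card_piFinset]
      simp
    exact_mod_cast h1
  have hN : ∀ m ∈ range P, ((#{j ∈ Icc 1 H | Nat.Coprime P (m + j)} : ℕ) : ℝ) ^ r ≤
      ((Nat.totient P : ℝ) * (H / P + 1)) ^ r := by
    intro m _
    apply pow_le_pow_left₀ (by positivity)
    have h1 : #{j ∈ Icc 1 H | Nat.Coprime P (m + j)} ≤ #{x ∈ Ico (m + 1) (m + 1 + H) | Nat.Coprime P x} := by
      apply card_le_card_of_injOn (fun j => m + j)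
      · intro j hj
        rw [mem_coe, mem_filter, mem_Icc] at hj
        rw [mem_coe, mem_filter, mem_Ico]
        refine ⟨⟨?_, ?_⟩, hj.2⟩
        · show m + 1 ≤ m + j
          omega
        · show m + j < m + 1 + H
          omega
      · intro i _ j _ hij
        simp only at hij
        omega
    have h2 := Nat.Ico_filter_coprime_le (m + 1) H hPpos.ne'
    calc ((#{j ∈ Icc 1 H | Nat.Coprime P (m + j)} : ℕ) : ℝ) ≤ ((Nat.totient P * (H / P + 1) : ℕ) : ℝ) := by
          exact_mod_cast h1.trans h2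
      _ ≤ (Nat.totient P : ℝ) * (H / P + 1) := by
          push_cast
          apply mul_le_mul_of_nonneg_left _ hphipos.le
          have : ((H / P : ℕ) : ℝ) ≤ (H : ℝ) / P := Nat.cast_div_le
          linarith
  calc ∑ b ∈ Fintype.piFinset (fun _ : Fin r => Icc 1 H), sy b y =
      ((P : ℝ) / Nat.totient P) ^ r / P * ∑ b ∈ Fintype.piFinset (fun _ : Fin r => Icc 1 H), (gg P b : ℝ) := by
        rw [mul_sum]
        apply sum_congr rfl
        intro b _
        rw [hsy b]; ring
    _ = ((P : ℝ) / Nat.totient P) ^ r / P *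
        ∑ m ∈ range P, ((#{j ∈ Icc 1 H | Nat.Coprime P (m + j)} : ℕ) : ℝ) ^ r := by rw [hsum]
    _ ≤ ((P : ℝ) / Nat.totient P) ^ r / P * ∑ m ∈ range P, ((Nat.totient P : ℝ) * (H / P + 1)) ^ r :=
        mul_le_mul_of_nonneg_left (sum_le_sum hN) (by positivity)
    _ = ((H : ℝ) + P) ^ r := by
        rw [sum_const, card_range, nsmul_eq_mul, mul_pow]
        have h4 : ((H : ℝ) + P) = P * (H / P + 1) := by field_simp
        rw [h4, mul_pow, div_pow]
        field_simp

end Pool.Agent.H386R2.HL
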