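import Mathlib
import Pool.Agent.H386R2.HL.B
import Pool.Agent.H646.Moment
import Pool.Agent.Helper256.KM.Mertens

namespace Pool.Agent.H386R2.HL
open Finset

lemma tt_pow_le (A y n : ℕ) (hn : 1 ≤ n) (hy : 4 * (A + 1) ^ 2 ≤ y) :
    tt y n ^ A ≤ 1 + ∑ d ∈ n.divisors.filter (fun d => y < d), (d : ℝ) ^ (-(1 / 2) : ℝ) := by
  classical
  unfold tt
  rw [← Finset.prod_pow]
  set S := n.primeFactors.filter (fun p => y < p) with hS
  have hSp : ∀ p ∈ S, p.Prime ∧ p ∣ n ∧ y < p := by
    intro p hp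
    rw [hS, mem_filter, Nat.mem_primeFactors] at hp
    exact ⟨hp.1.1, hp.1.2.1, hp.2⟩
  have h1 : ∏ p ∈ S, ((1 - 1 / (p : ℝ))⁻¹) ^ A ≤ ∏ p ∈ S, (1 + (p : ℝ) ^ (-(1 / 2) : ℝ)) := by
    apply prod_le_prod
    · intro p hp
      have := one_sub_pos (hSp p hp).1
      positivity
    · intro p hp
      have h2 := H646.MomentM.rm_local_factor A (hSp p hp).1
      rw [if_neg (by have := (hSp p hp).2.2; omega), one_mul] at h2
      simpa only [one_div] using h2
  refine h1.trans ?_
  rw [Finset.prod_one_add]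
  have hprod : ∀ s ∈ S.powerset,
      ∏ p ∈ s, (p : ℝ) ^ (-(1 / 2) : ℝ) = ((∏ p ∈ s, p : ℕ) : ℝ) ^ (-(1 / 2) : ℝ) := by
    intro s _
    rw [Nat.cast_prod, Real.finsetProd_rpow s (fun p => (p : ℝ)) (fun p _ => by positivity)]
  rw [Finset.sum_congr rfl hprod]
  have hinj : Set.InjOn (fun s : Finset ℕ => ∏ p ∈ s, p) (S.powerset : Set (Finset ℕ)) := by
    intro s hs t ht hst
    rw [mem_coe, mem_powerset] at hs ht
    have h3 : (∏ p ∈ s, p).primeFactors = s := Nat.primeFactors_prod fun p hp => (hSp p (hs hp)).1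
    have h4 : (∏ p ∈ t, p).primeFactors = t := Nat.primeFactors_prod fun p hp => (hSp p (ht hp)).1
    have h5 : ∏ p ∈ s, p = ∏ p ∈ t, p := hst
    rw [← h3, h5, h4]
  rw [← Finset.sum_image (f := fun d : ℕ => (d : ℝ) ^ (-(1 / 2) : ℝ)) hinj]
  have hsub : S.powerset.image (fun s => ∏ p ∈ s, p) ⊆ insert 1 (n.divisors.filter (fun d => y < d)) := by
    intro d hd
    rw [Finset.mem_image] at hd
    obtain ⟨s, hs, rfl⟩ := hd
    rw [Finset.mem_powerset] at hs
    rcases s.eq_empty_or_nonempty with rfl | ⟨p, hp⟩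
    · simp
    · rw [mem_insert, mem_filter, Nat.mem_divisors]
      right
      refine ⟨⟨?_, by omega⟩, ?_⟩
      · calc ∏ p ∈ s, p ∣ ∏ p ∈ S, p := Finset.prod_dvd_prod_of_subset _ _ _ hs
          _ ∣ ∏ p ∈ n.primeFactors, p := Finset.prod_dvd_prod_of_subset _ _ _ (filter_subset _ _)
          _ ∣ n := Nat.prod_primeFactors_dvd n
      · have h6 : p ∣ ∏ p ∈ s, p := dvd_prod_of_mem _ hp
        have h7 : 0 < ∏ p ∈ s, p := prod_pos fun q hq => (hSp q (hs hq)).1.pos
        have := Nat.le_of_dvd h7 h6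
        have := (hSp p (hs hp)).2.2
        omega
  refine (sum_le_sum_of_subset_of_nonneg hsub (fun d _ _ => by positivity)).trans ?_
  by_cases h1 : 1 ∈ n.divisors.filter (fun d => y < d)
  · exfalso
    have := (mem_filter.1 h1).2
    have : 4 * (A + 1) ^ 2 ≥ 4 := by nlinarith [Nat.zero_le A]
    omega
  · rw [sum_insert h1]
    simp

lemma tail_step (d : ℝ) (hd : 1 ≤ d) : (d + 1) ^ (-(3 / 2) : ℝ) ≤ 2 / √d - 2 / √(d + 1) := by
  have hd0 : 0 < d := by linarith
  have h1 : 0 < √d := Real.sqrt_pos.2 hd0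
  have h2 : 0 < √(d + 1) := Real.sqrt_pos.2 (by linarith)
  have e1 : √d ^ 2 = d := Real.sq_sqrt hd0.le
  have e2 : √(d + 1) ^ 2 = d + 1 := Real.sq_sqrt (by linarith)
  have h3 : √d ≤ √(d + 1) := Real.sqrt_le_sqrt (by linarith)
  have h4 : (d + 1) ^ (-(3 / 2) : ℝ) = 1 / (√(d + 1)) ^ 3 := by
    rw [Real.sqrt_eq_rpow, ← Real.rpow_natCast, ← Real.rpow_mul (by linarith), one_div, ← Real.rpow_neg (by linarith)]
    norm_num
  rw [h4]
  have h5 : 2 / √d - 2 / √(d + 1) = 2 / (√d * √(d + 1) * (√d + √(d + 1))) := by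
    rw [div_sub_div _ _ h1.ne' h2.ne', div_eq_div_iff (by positivity) (by positivity)]
    have : (√(d + 1) - √d) * (√(d + 1) + √d) = 1 := by nlinarith
    linear_combination (2 * √d * √(d + 1)) * this
  rw [h5, div_le_div_iff₀ (by positivity) (by positivity)]
  have h6 : √d * √(d + 1) * (√d + √(d + 1)) ≤ √(d + 1) * √(d + 1) * (√(d + 1) + √(d + 1)) := by
    gcongr
  nlinarith

lemma tail_le (y : ℕ) (hy : 1 ≤ y) (N : ℕ) :
    ∑ d ∈ (Icc 1 N).filter (fun d => y < d), (d : ℝ) ^ (-(3 / 2) : ℝ) ≤ 2 / √(y : ℝ) := by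
  rcases Nat.lt_or_ge N y with hN | hN
  · rw [filter_false_of_mem]
    · rw [sum_empty]; positivity
    · intro d hd
      have := (mem_Icc.1 hd).2
      omega
  have h : ∀ k : ℕ, ∑ d ∈ (Icc 1 (y + k)).filter (fun d => y < d), (d : ℝ) ^ (-(3 / 2) : ℝ) ≤
      2 / √(y : ℝ) - 2 / √((y + k : ℕ) : ℝ) := by
    intro k
    induction k with
    | zero =>
      rw [filter_false_of_mem]
      · simp
      · intro d hd
        have := (mem_Icc.1 hd).2
        omega
    | succ k ih =>
      have e : (Icc 1 (y + (k + 1))).filter (fun d => y < d) =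
          insert (y + k + 1) ((Icc 1 (y + k)).filter (fun d => y < d)) := by
        ext d
        simp only [mem_filter, mem_Icc, mem_insert]
        omega
      rw [e, sum_insert (by simp)]
      have h1 := tail_step ((y + k : ℕ) : ℝ) (by
        have : 1 ≤ y + k := by omega
        exact_mod_cast this)
      have e2 : ((y + k + 1 : ℕ) : ℝ) = ((y + k : ℕ) : ℝ) + 1 := by push_cast; ring
      have e3 : ((y + (k + 1) : ℕ) : ℝ) = ((y + k : ℕ) : ℝ) + 1 := by push_cast; ring
      rw [e2, e3]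
      linarith
  obtain ⟨k, rfl⟩ := Nat.exists_eq_add_of_le hN
  have h1 := h k
  have h2 : 0 ≤ 2 / √((y + k : ℕ) : ℝ) := by positivity
  linarith

theorem tt_moment (A : ℕ) (y : ℕ) (hy2 : 4 * (A + 1) ^ 2 ≤ y) (N : ℕ) :
    ∑ n ∈ Icc 1 N, (tt y n ^ A - 1) ≤ 2 / √(y : ℝ) * N := by
  have h1 : ∑ n ∈ Icc 1 N, (tt y n ^ A - 1) ≤
      ∑ n ∈ Icc 1 N, ∑ d ∈ n.divisors.filter (fun d => y < d), (d : ℝ) ^ (-(1 / 2) : ℝ) := by
    apply sum_le_sum
    intro n hn
    have := tt_pow_le A y n (mem_Icc.1 hn).1 hy2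
    linarith
  refine h1.trans ?_
  have h2 : ∑ n ∈ Icc 1 N, ∑ d ∈ n.divisors.filter (fun d => y < d), (d : ℝ) ^ (-(1 / 2) : ℝ) =
      ∑ d ∈ (Icc 1 N).filter (fun d => y < d), ∑ n ∈ (Icc 1 N).filter (fun n => d ∣ n), (d : ℝ) ^ (-(1 / 2) : ℝ) := by
    refine Finset.sum_comm' ?_
    intro n d
    simp only [Finset.mem_Icc, Nat.mem_divisors, Finset.mem_filter]
    constructor
    · rintro ⟨⟨h1, h2⟩, ⟨h3, h4⟩, h5⟩
      exact ⟨⟨⟨h1, h2⟩, h3⟩, ⟨Nat.pos_of_dvd_of_pos h3 h1, (Nat.le_of_dvd h1 h3).trans h2⟩, h5⟩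
    · rintro ⟨⟨⟨h1, h2⟩, h3⟩, _, h6⟩
      exact ⟨⟨h1, h2⟩, ⟨h3, by omega⟩, h6⟩
  rw [h2]
  have h3 : ∀ d ∈ (Icc 1 N).filter (fun d => y < d), ∑ n ∈ (Icc 1 N).filter (fun n => d ∣ n), (d : ℝ) ^ (-(1 / 2) : ℝ) ≤
      (d : ℝ) ^ (-(3 / 2) : ℝ) * N := by
    intro d hd
    rw [mem_filter, Finset.mem_Icc] at hd
    have hd0 : (0 : ℝ) < d := by exact_mod_cast hd.1.1
    rw [Finset.sum_const, nsmul_eq_mul]
    have h3 : ((Icc 1 N).filter (fun n => d ∣ n)).card = N / d := by
      have := Nat.Ioc_filter_dvd_card_eq_div N d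
      rw [← this]
      rfl
    rw [h3]
    have h4 : ((N / d : ℕ) : ℝ) ≤ N / d := Nat.cast_div_le
    have h5 : (d : ℝ) ^ (-(3 / 2) : ℝ) * N = N / d * (d : ℝ) ^ (-(1 / 2) : ℝ) := by
      have : (d : ℝ) ^ (-(3 / 2) : ℝ) = (d : ℝ) ^ (-(1 / 2) : ℝ) / d := by
        rw [← Real.rpow_sub_one hd0.ne']; norm_num
      rw [this]; ring
    rw [h5]
    exact mul_le_mul_of_nonneg_right h4 (by positivity)
  refine (Finset.sum_le_sum h3).trans ?_
  rw [← Finset.sum_mul]
  apply mul_le_mul_of_nonneg_right _ (by positivity)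
  apply tail_le
  have : 1 ≤ (A + 1) ^ 2 := Nat.one_le_pow _ _ (by omega)
  omega

/-- sums over `b ∈ [1,H]^r` of a nonnegative function of `|b_i - b_j|` -/
theorem pair_sum_le {r : ℕ} (i j : Fin r) (hij : i ≠ j) (H : ℕ) (F : ℕ → ℝ) (hF : ∀ n, 1 ≤ n → 0 ≤ F n) :
    ∑ b ∈ (Fintype.piFinset (fun _ : Fin r => Icc 1 H)).filter (fun b => b i ≠ b j), F (Nat.dist (b i) (b j)) ≤
      2 * (H : ℝ) ^ (r - 1) * ∑ d ∈ Icc 1 H, F d := by
  classical
  set C : Finset (Fin r → ℕ) := Fintype.piFinset (fun k : Fin r => if k = j then {1} else Icc 1 H) with hC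
  have hCcard : #C = H ^ (r - 1) := by
    rw [hC, Fintype.card_piFinset]
    have h1 : ∀ k : Fin r, #(if k = j then ({1} : Finset ℕ) else Icc 1 H) = if k = j then 1 else H := by
      intro k
      split_ifs <;> simp
    simp_rw [h1]
    rw [prod_ite, prod_const_one, one_mul, prod_const]
    congr 1
    have : (univ.filter (fun k : Fin r => ¬ k = j)) = univ.erase j := by
      ext k; simp
    rw [this, card_erase_of_mem (mem_univ j)]
    simp
  set D : Finset ((Fin r → ℕ) × ℕ) := (C ×ˢ Icc 1 H).filter (fun w => w.1 i ≠ w.2) with hD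
  have h1 : ∑ b ∈ (Fintype.piFinset (fun _ : Fin r => Icc 1 H)).filter (fun b => b i ≠ b j), F (Nat.dist (b i) (b j)) ≤
      ∑ w ∈ D, F (Nat.dist (w.1 i) w.2) := by
    have hmap : ∀ b ∈ (Fintype.piFinset (fun _ : Fin r => Icc 1 H)).filter (fun b => b i ≠ b j),
        (Function.update b j 1, b j) ∈ D := by
      intro b hb
      rw [mem_filter, Fintype.mem_piFinset] at hb
      rw [hD, mem_filter, mem_product, hC, Fintype.mem_piFinset]
      refine ⟨⟨fun k => ?_, hb.1 j⟩, ?_⟩
      · split_ifs with hk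
        · subst hk; simp
        · show Function.update b j 1 k ∈ Icc 1 H
          rw [Function.update_of_ne hk]; exact hb.1 k
      · simp only
        rw [Function.update_of_ne hij]; exact hb.2
    have hinj : Set.InjOn (fun b : Fin r → ℕ => (Function.update b j 1, b j))
        ((Fintype.piFinset (fun _ : Fin r => Icc 1 H)).filter (fun b => b i ≠ b j) : Finset (Fin r → ℕ)) := by
      intro b _ b' _ h
      simp only [Prod.mk.injEq] at h
      ext k
      by_cases hk : k = j
      · rw [hk]; exact h.2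
      · have := congrFun h.1 k
        rwa [Function.update_of_ne hk, Function.update_of_ne hk] at this
    calc _ = ∑ b ∈ (Fintype.piFinset (fun _ : Fin r => Icc 1 H)).filter (fun b => b i ≠ b j),
          (fun w : (Fin r → ℕ) × ℕ => F (Nat.dist (w.1 i) w.2)) (Function.update b j 1, b j) := by
          apply sum_congr rfl
          intro b _
          simp only
          rw [Function.update_of_ne hij]
      _ = ∑ w ∈ ((Fintype.piFinset (fun _ : Fin r => Icc 1 H)).filter (fun b => b i ≠ b j)).image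
          (fun b : Fin r → ℕ => (Function.update b j 1, b j)), F (Nat.dist (w.1 i) w.2) :=
          (sum_image (f := fun w : (Fin r → ℕ) × ℕ => F (Nat.dist (w.1 i) w.2)) hinj).symm
      _ ≤ _ := by
          apply sum_le_sum_of_subset_of_nonneg
          · intro w hw
            rw [mem_image] at hw
            obtain ⟨b, hb, rfl⟩ := hw
            exact hmap b hb
          · intro w hw _
            apply hF
            rw [hD, mem_filter] at hw
            exact Nat.pos_of_ne_zero fun h => hw.2 (Nat.eq_of_dist_eq_zero h)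
  refine h1.trans ?_
  have h2 : ∑ w ∈ D, F (Nat.dist (w.1 i) w.2) = ∑ c ∈ C, ∑ v ∈ (Icc 1 H).filter (fun v => c i ≠ v), F (Nat.dist (c i) v) := by
    rw [hD, sum_filter, sum_product]
    apply sum_congr rfl
    intro c _
    rw [sum_filter]
  rw [h2]
  have h3 : ∀ c ∈ C, ∑ v ∈ (Icc 1 H).filter (fun v => c i ≠ v), F (Nat.dist (c i) v) ≤ 2 * ∑ d ∈ Icc 1 H, F d := by
    intro c hc
    rw [hC, Fintype.mem_piFinset] at hc
    have hci := hc i
    rw [if_neg hij, mem_Icc] at hci
    set u := c i with hu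
    have h4 : (Icc 1 H).filter (fun v => u ≠ v) = (Icc 1 H).filter (fun v => v < u) ∪ (Icc 1 H).filter (fun v => u < v) := by
      ext v
      simp only [mem_filter, mem_union]
      constructor
      · rintro ⟨h, h'⟩
        rcases lt_or_gt_of_ne h' with h'' | h''
        · exact Or.inr ⟨h, h''⟩
        · exact Or.inl ⟨h, h''⟩
      · rintro (⟨h, h'⟩ | ⟨h, h'⟩)
        · exact ⟨h, by omega⟩
        · exact ⟨h, by omega⟩
    rw [h4, sum_union, two_mul]
    · apply add_le_add
      · calc ∑ v ∈ (Icc 1 H).filter (fun v => v < u), F (Nat.dist u v) =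
            ∑ v ∈ (Icc 1 H).filter (fun v => v < u), F (u - v) := by
              apply sum_congr rfl
              intro v hv
              rw [mem_filter] at hv
              rw [Nat.dist_comm, Nat.dist_eq_sub_of_le hv.2.le]
          _ = ∑ d ∈ ((Icc 1 H).filter (fun v => v < u)).image (fun v => u - v), F d := by
              rw [sum_image]
              intro x hx z hz hxz
              rw [mem_coe, mem_filter] at hx hz
              simp only at hxz
              omega
          _ ≤ _ := by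
              apply sum_le_sum_of_subset_of_nonneg
              · intro d hd
                rw [mem_image] at hd
                obtain ⟨v, hv, rfl⟩ := hd
                rw [mem_filter, mem_Icc] at hv
                rw [mem_Icc]
                omega
              · intro d hd _
                exact hF d (mem_Icc.1 hd).1
      · calc ∑ v ∈ (Icc 1 H).filter (fun v => u < v), F (Nat.dist u v) =
            ∑ v ∈ (Icc 1 H).filter (fun v => u < v), F (v - u) := by
              apply sum_congr rfl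
              intro v hv
              rw [mem_filter] at hv
              rw [Nat.dist_eq_sub_of_le hv.2.le]
          _ = ∑ d ∈ ((Icc 1 H).filter (fun v => u < v)).image (fun v => v - u), F d := by
              rw [sum_image]
              intro x hx z hz hxz
              rw [mem_coe, mem_filter] at hx hz
              simp only at hxz
              omega
          _ ≤ _ := by
              apply sum_le_sum_of_subset_of_nonneg
              · intro d hd
                rw [mem_image] at hd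
                obtain ⟨v, hv, rfl⟩ := hd
                rw [mem_filter, mem_Icc] at hv
                rw [mem_Icc]
                omega
              · intro d hd _
                exact hF d (mem_Icc.1 hd).1
    · rw [disjoint_left]
      intro v hv hv'
      rw [mem_filter] at hv hv'
      omega
  refine (sum_le_sum h3).trans (le_of_eq ?_)
  rw [sum_const, hCcard, nsmul_eq_mul]
  push_cast
  ring

lemma prod_sub_one_le {ι : Type} (Q : Finset ι) (t : ι → ℝ) (ht : ∀ q ∈ Q, 1 ≤ t q) :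
    ∏ q ∈ Q, t q - 1 ≤ ∑ q ∈ Q, (t q ^ (#Q) - 1) := by
  rcases Q.eq_empty_or_nonempty with rfl | hQ
  · simp
  obtain ⟨m, hm, hmax⟩ := Finset.exists_max_image Q t hQ
  have h1 : ∏ q ∈ Q, t q ≤ t m ^ (#Q) := by
    calc ∏ q ∈ Q, t q ≤ ∏ _q ∈ Q, t m :=
          Finset.prod_le_prod (fun q hq => by linarith [ht q hq]) (fun q hq => hmax q hq)
      _ = _ := by rw [Finset.prod_const]
  have h2 : t m ^ (#Q) - 1 ≤ ∑ q ∈ Q, (t q ^ (#Q) - 1) :=
    Finset.single_le_sum (f := fun q => t q ^ (#Q) - 1)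
      (fun q hq => by
        have := one_le_pow₀ (ht q hq) (n := #Q)
        show 0 ≤ t q ^ #Q - 1
        linarith) hm
  linarith

/-- Mertens: upper bound for the Euler product -/
theorem euler_le : ∃ C : ℝ, 0 < C ∧ ∀ y : ℕ, 3 ≤ y →
    ∏ p ∈ (y + 1).primesBelow, (1 - 1 / (p : ℝ))⁻¹ ≤ C * (Real.log y) ^ 2 := by
  obtain ⟨C, hC⟩ := Pool.Agent.Helper256.KM.Mert.mertens_inv
  refine ⟨Real.exp (2 * C), Real.exp_pos _, fun y hy => ?_⟩
  have h1 := (abs_le.1 (hC y hy)).2
  have hset : (y + 1).primesBelow = (Icc 1 y).filter Nat.Prime := by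
    ext p
    rw [Nat.mem_primesBelow, mem_filter, mem_Icc]
    constructor
    · rintro ⟨h1, h2⟩; exact ⟨⟨h2.one_lt.le, by omega⟩, h2⟩
    · rintro ⟨h1, h2⟩; exact ⟨by omega, h2⟩
  have hlog : 0 < Real.log y := Real.log_pos (by exact_mod_cast (by omega : 1 < y))
  calc ∏ p ∈ (y + 1).primesBelow, (1 - 1 / (p : ℝ))⁻¹ ≤ ∏ p ∈ (y + 1).primesBelow, Real.exp (2 * (1 / (p : ℝ))) := by
        apply prod_le_prod
        · intro p hp
          have := one_sub_pos (Nat.prime_of_mem_primesBelow hp)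
          positivity
        · intro p hp
          have hpp := Nat.prime_of_mem_primesBelow hp
          have h2 : (2 : ℝ) ≤ p := by exact_mod_cast hpp.two_le
          have h3 : 1 / (p : ℝ) ≤ 1 / 2 := one_div_le_one_div_of_le (by norm_num) h2
          have h4 : 0 < 1 / (p : ℝ) := by positivity
          have h5 := one_sub_pos hpp
          rw [inv_le_comm₀ h5 (Real.exp_pos _), ← Real.exp_neg]
          set t := 1 / (p : ℝ) with ht
          have h6 : 1 + 2 * t ≤ Real.exp (2 * t) := by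
            have := Real.add_one_le_exp (2 * t)
            linarith
          rw [Real.exp_neg, inv_le_comm₀ (Real.exp_pos _) h5]
          refine le_trans ?_ h6
          rw [inv_le_comm₀ h5 (by positivity), inv_le_iff_one_le_mul₀ (by positivity)]
          nlinarith
    _ = Real.exp (2 * ∑ p ∈ (Icc 1 y).filter Nat.Prime, 1 / (p : ℝ)) := by
        rw [← Real.exp_sum, hset, mul_sum]
    _ ≤ Real.exp (2 * (Real.log (Real.log y) + C)) := by
        apply Real.exp_le_exp.2
        linarith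
    _ = Real.exp (2 * C) * (Real.log y) ^ 2 := by
        have : Real.exp (2 * (Real.log (Real.log y) + C)) = Real.exp (2 * C) * (Real.exp (Real.log (Real.log y))) ^ 2 := by
          rw [← Real.exp_nat_mul, ← Real.exp_add]
          congr 1
          push_cast
          ring
        rw [this, Real.exp_log hlog]

/-- upper bound for the average of the singular series (Gallagher) -/
theorem sum_singularSeries_le (r : ℕ) (δ : ℝ) (hδ : 0 < δ) : ∃ H₀ : ℕ, ∀ H : ℕ, H₀ ≤ H →
    ∑ b ∈ (Fintype.piFinset (fun _ : Fin r => Icc 1 H)).filter (fun b => Function.Injective b),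
      singularSeries b ≤ (1 + δ) * (H : ℝ) ^ r := by
  classical
  obtain ⟨C, hC, hE⟩ := euler_le
  set A : ℕ := #(prs r) with hA
  -- choose y
  have hlim : Filter.Tendsto (fun y : ℕ => (C * (Real.log y) ^ 2) ^ r * ((A : ℝ) * (2 * (2 / √(y : ℝ)))))
      Filter.atTop (nhds 0) := by
    have h1 : Filter.Tendsto (fun x : ℝ => (Real.log x) ^ (2 * r) / √x) Filter.atTop (nhds 0) := by
      have h2 : (fun x : ℝ => Real.log x ^ ((2 * r : ℕ) : ℝ)) =o[Filter.atTop] fun x : ℝ => x ^ (1 / 2 : ℝ) :=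
        isLittleO_log_rpow_rpow_atTop ((2 * r : ℕ) : ℝ) (by norm_num)
      have h3 := h2.tendsto_div_nhds_zero
      refine h3.congr' ?_
      filter_upwards with x
      rw [Real.rpow_natCast, Real.sqrt_eq_rpow]
    have h2 := (h1.comp (tendsto_natCast_atTop_atTop (R := ℝ))).const_mul (C ^ r * (A * 4))
    rw [mul_zero] at h2
    refine h2.congr ?_
    intro y
    simp only [Function.comp]
    rw [mul_pow, ← pow_mul]
    ring
  obtain ⟨y₁, hy₁⟩ := Filter.eventually_atTop.1 (hlim.eventually (gt_mem_nhds (show (0 : ℝ) < δ / 2 by linarith)))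
  set y : ℕ := max y₁ (max 3 (4 * (A + 1) ^ 2)) with hy
  have hy1 : y₁ ≤ y := le_max_left _ _
  have hy3 : 3 ≤ y := (le_max_left _ _).trans (le_max_right _ _)
  have hyA : 4 * (A + 1) ^ 2 ≤ y := (le_max_right _ _).trans (le_max_right _ _)
  set P : ℕ := ∏ p ∈ (y + 1).primesBelow, p with hP
  set M : ℝ := (C * (Real.log y) ^ 2) ^ r with hM
  have hMnn : 0 ≤ M := by positivity
  have hsyM : ∀ b : Fin r → ℕ, sy b y ≤ M := by
    intro b
    calc sy b y ≤ ∏ p ∈ (y + 1).primesBelow, ((1 - 1 / (p : ℝ))⁻¹) ^ r :=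
          prod_le_prod (fun p hp => localFactor_nonneg b (Nat.prime_of_mem_primesBelow hp))
            (fun p hp => localFactor_le_pow b (Nat.prime_of_mem_primesBelow hp))
      _ = (∏ p ∈ (y + 1).primesBelow, (1 - 1 / (p : ℝ))⁻¹) ^ r := prod_pow _ _ _
      _ ≤ M := by
          apply pow_le_pow_left₀ _ (hE y hy3)
          apply prod_nonneg
          intro p hp
          have := one_sub_pos (Nat.prime_of_mem_primesBelow hp)
          positivity
  -- choose H₀
  have hlim2 : Filter.Tendsto (fun H : ℕ => (1 + (P : ℝ) / H) ^ r) Filter.atTop (nhds 1) := by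
    have h1 : Filter.Tendsto (fun H : ℕ => (P : ℝ) / H) Filter.atTop (nhds 0) :=
      tendsto_const_div_atTop_nhds_zero_nat (P : ℝ)
    have h2 := (h1.const_add 1).pow r
    simpa using h2
  obtain ⟨H₁, hH₁⟩ := Filter.eventually_atTop.1 (hlim2.eventually (gt_mem_nhds (show (1 : ℝ) < 1 + δ / 2 by linarith)))
  refine ⟨max H₁ 1, fun H hH => ?_⟩
  have hH1 : H₁ ≤ H := (le_max_left _ _).trans hH
  have hHpos : 1 ≤ H := (le_max_right _ _).trans hH
  have hHr : (0 : ℝ) < H := by exact_mod_cast hHpos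
  set S := (Fintype.piFinset (fun _ : Fin r => Icc 1 H)).filter (fun b => Function.Injective b) with hS
  have hterm : ∀ b ∈ S, singularSeries b ≤ sy b y +
      M * ∑ q ∈ prs r, (tt y (Nat.dist (b q.1) (b q.2)) ^ A - 1) := by
    intro b hb
    rw [hS, mem_filter] at hb
    have h1 := singularSeries_le b hb.2 y
    have h2 := prod_sub_one_le (prs r) (fun q => tt y (Nat.dist (b q.1) (b q.2))) (fun q _ => one_le_tt _ _)
    have h3 : 0 ≤ ∏ q ∈ prs r, tt y (Nat.dist (b q.1) (b q.2)) - 1 := by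
      have : 1 ≤ ∏ q ∈ prs r, tt y (Nat.dist (b q.1) (b q.2)) := by
        apply Finset.prod_induction _ (fun x : ℝ => 1 ≤ x)
          (fun a b ha hb => one_le_mul_of_one_le_of_one_le ha hb) le_rfl
        intro q _
        exact one_le_tt _ _
      linarith
    have h4 := sy_nonneg b y
    calc singularSeries b ≤ sy b y * ∏ q ∈ prs r, tt y (Nat.dist (b q.1) (b q.2)) := h1
      _ = sy b y + sy b y * (∏ q ∈ prs r, tt y (Nat.dist (b q.1) (b q.2)) - 1) := by ring
      _ ≤ sy b y + M * (∏ q ∈ prs r, tt y (Nat.dist (b q.1) (b q.2)) - 1) := by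
          have := mul_le_mul_of_nonneg_right (hsyM b) h3
          linarith
      _ ≤ _ := by
          have := mul_le_mul_of_nonneg_left h2 hMnn
          linarith
  have hsum1 : ∑ b ∈ S, sy b y ≤ (1 + δ / 2) * (H : ℝ) ^ r := by
    calc ∑ b ∈ S, sy b y ≤ ∑ b ∈ Fintype.piFinset (fun _ : Fin r => Icc 1 H), sy b y :=
          sum_le_sum_of_subset_of_nonneg (filter_subset _ _) (fun b _ _ => sy_nonneg b y)
      _ ≤ ((H : ℝ) + P) ^ r := sum_sy_le r y H
      _ = (1 + (P : ℝ) / H) ^ r * (H : ℝ) ^ r := by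
          rw [← mul_pow]; congr 1; field_simp
      _ ≤ _ := mul_le_mul_of_nonneg_right (hH₁ H hH1).le (by positivity)
  have hsum2 : ∑ b ∈ S, ∑ q ∈ prs r, (tt y (Nat.dist (b q.1) (b q.2)) ^ A - 1) ≤
      (A : ℝ) * (2 * (2 / √(y : ℝ))) * (H : ℝ) ^ r := by
    rw [sum_comm]
    have h1 : ∀ q ∈ prs r, ∑ b ∈ S, (tt y (Nat.dist (b q.1) (b q.2)) ^ A - 1) ≤
        2 * (2 / √(y : ℝ)) * (H : ℝ) ^ r := by
      intro q hq
      have hq' : q.1 < q.2 := (mem_filter.1 hq).2
      have hr1 : 1 ≤ r := by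
        have := q.1.2
        omega
      have h2 := pair_sum_le q.1 q.2 hq'.ne H (fun n => tt y n ^ A - 1) (fun n _ => by
        have := one_le_pow₀ (one_le_tt y n) (n := A)
        show 0 ≤ tt y n ^ A - 1
        linarith)
      have h3 := tt_moment A y hyA H
      calc ∑ b ∈ S, (tt y (Nat.dist (b q.1) (b q.2)) ^ A - 1) ≤
          ∑ b ∈ (Fintype.piFinset (fun _ : Fin r => Icc 1 H)).filter (fun b => b q.1 ≠ b q.2),
            (tt y (Nat.dist (b q.1) (b q.2)) ^ A - 1) := by
            apply sum_le_sum_of_subset_of_nonneg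
            · intro b hb
              rw [hS, mem_filter] at hb
              rw [mem_filter]
              exact ⟨hb.1, fun h => hq'.ne (hb.2 h)⟩
            · intro b _ _
              have := one_le_pow₀ (one_le_tt y (Nat.dist (b q.1) (b q.2))) (n := A)
              linarith
        _ ≤ 2 * (H : ℝ) ^ (r - 1) * ∑ d ∈ Icc 1 H, (tt y d ^ A - 1) := h2
        _ ≤ 2 * (H : ℝ) ^ (r - 1) * (2 / √(y : ℝ) * H) := mul_le_mul_of_nonneg_left h3 (by positivity)
        _ = 2 * (2 / √(y : ℝ)) * (H : ℝ) ^ r := by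
            obtain ⟨k, rfl⟩ := Nat.exists_eq_add_of_le hr1
            rw [Nat.add_sub_cancel_left, add_comm 1 k, pow_succ]
            ring
    refine (sum_le_sum h1).trans (le_of_eq ?_)
    rw [sum_const, nsmul_eq_mul, ← hA]
    ring
  have hy2 := hy₁ y hy1
  calc ∑ b ∈ S, singularSeries b ≤ ∑ b ∈ S, (sy b y + M * ∑ q ∈ prs r, (tt y (Nat.dist (b q.1) (b q.2)) ^ A - 1)) :=
        sum_le_sum hterm
    _ = ∑ b ∈ S, sy b y + M * ∑ b ∈ S, ∑ q ∈ prs r, (tt y (Nat.dist (b q.1) (b q.2)) ^ A - 1) := by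
        rw [sum_add_distrib, mul_sum]
    _ ≤ (1 + δ / 2) * (H : ℝ) ^ r + M * ((A : ℝ) * (2 * (2 / √(y : ℝ))) * (H : ℝ) ^ r) :=
        add_le_add hsum1 (mul_le_mul_of_nonneg_left hsum2 hMnn)
    _ = (1 + δ / 2 + M * ((A : ℝ) * (2 * (2 / √(y : ℝ))))) * (H : ℝ) ^ r := by ring
    _ ≤ (1 + δ) * (H : ℝ) ^ r := by
        apply mul_le_mul_of_nonneg_right _ (by positivity)
        linarith

end Pool.Agent.H386R2.HL
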