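import Mathlib
import Pool.Agent.H386R2.HL.C
import Pool.Agent.H646.Tuples

namespace Pool.Agent.H386R2.HL
open Finset
open Pool.Agent.H646 (rat)

/-- off-diagonal pairs -/
def offd (r : ℕ) : Finset (Fin r × Fin r) := univ.filter (fun q => q.1 ≠ q.2)

/-- uniform sieve upper bound for injective tuples -/
theorem tupleCount_le (r : ℕ) (hr : 2 ≤ r) : ∃ C > (0 : ℝ), ∃ A x₀ : ℕ, ∀ x : ℕ, x₀ ≤ x →
    ∀ b : Fin r → ℕ, Function.Injective b →
      (tupleCount b x : ℝ) ≤ C * x / (Real.log x) ^ r * ∑ q ∈ offd r, rat (Nat.dist (b q.1) (b q.2)) ^ A := by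
  classical
  obtain ⟨C, hC, A, x₀, h⟩ := H646.TuplesM.tuple_bound r (by omega)
  set Q : Finset (Fin r × Fin r) := univ.filter (fun q => q.1 < q.2) with hQ
  have hQne : Q.Nonempty := ⟨(⟨0, by omega⟩, ⟨1, by omega⟩), by
    rw [hQ, mem_filter]; exact ⟨mem_univ _, by rw [Fin.lt_def]; simp⟩⟩
  refine ⟨C, hC, A * #Q, x₀, fun x hx b hb => ?_⟩
  set σ := Tuple.sort b with hσ
  have hmono : StrictMono (b ∘ σ) := (Tuple.monotone_sort b).strictMono_of_injective (hb.comp σ.injective)
  have h1 := h x hx (b ∘ σ) hmono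
  have hcnt : tupleCount b x = #{n ∈ Icc 1 x | ∀ j, (n + (b ∘ σ) j).Prime} := by
    unfold tupleCount
    congr 1
    apply filter_congr
    intro n _
    constructor
    · intro h j; exact h (σ j)
    · intro h i
      have := h (σ.symm i)
      simpa using this
  rw [hcnt]
  refine h1.trans ?_
  have hlog : 0 ≤ Real.log x := Real.log_natCast_nonneg x
  apply mul_le_mul_of_nonneg_left _ (by positivity)
  have hone : ∀ q ∈ Q, 1 ≤ rat ((b ∘ σ) q.2 - (b ∘ σ) q.1) ^ A := by
    intro q hq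
    have h2 := hmono (mem_filter.mp hq).2
    exact one_le_pow₀ (H646.TuplesM.rat_ge_one (by omega))
  refine (H646.TuplesM.prod_le_sum_pow Q (fun q => rat ((b ∘ σ) q.2 - (b ∘ σ) q.1) ^ A) hone hQne).trans ?_
  have h3 : ∀ q ∈ Q, (rat ((b ∘ σ) q.2 - (b ∘ σ) q.1) ^ A) ^ #Q =
      rat (Nat.dist (b (σ q.1)) (b (σ q.2))) ^ (A * #Q) := by
    intro q hq
    have h2 := hmono (mem_filter.mp hq).2
    simp only [Function.comp] at h2 ⊢
    rw [← pow_mul, Nat.dist_eq_sub_of_le h2.le]
  rw [sum_congr rfl h3]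
  calc ∑ q ∈ Q, rat (Nat.dist (b (σ q.1)) (b (σ q.2))) ^ (A * #Q) =
      ∑ w ∈ Q.image (fun q => (σ q.1, σ q.2)), rat (Nat.dist (b w.1) (b w.2)) ^ (A * #Q) := by
        rw [sum_image]
        intro q _ q' _ h
        simp only [Prod.mk.injEq, EmbeddingLike.apply_eq_iff_eq] at h
        exact Prod.ext h.1 h.2
    _ ≤ _ := by
        apply sum_le_sum_of_subset_of_nonneg
        · intro w hw
          rw [mem_image] at hw
          obtain ⟨q, hq, rfl⟩ := hw
          rw [offd, mem_filter]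
          exact ⟨mem_univ _, fun h => (mem_filter.mp hq).2.ne (σ.injective h)⟩
        · intro w _ _
          have := H646.TuplesM.rat_nonneg (Nat.dist (b w.1) (b w.2))
          positivity

/-- second moment of the counts over `b ∈ [1,H]^r` -/
theorem second_moment (r : ℕ) (hr : 2 ≤ r) : ∃ C > (0 : ℝ), ∃ x₀ : ℕ, ∀ x : ℕ, x₀ ≤ x → ∀ H : ℕ,
    ∑ b ∈ (Fintype.piFinset (fun _ : Fin r => Icc 1 H)).filter (fun b => Function.Injective b),
      (tupleCount b x : ℝ) ^ 2 ≤ C * (H : ℝ) ^ r * (x / (Real.log x) ^ r) ^ 2 := by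
  classical
  obtain ⟨C, hC, A, x₀, h⟩ := tupleCount_le r hr
  obtain ⟨C2, hC2, hmom⟩ := H646.MomentM.rat_moment (A * 2)
  refine ⟨C ^ 2 * (#(offd r) * (#(offd r) * (2 * C2))) + 1, by positivity, x₀, fun x hx H => ?_⟩
  set S := (Fintype.piFinset (fun _ : Fin r => Icc 1 H)).filter (fun b => Function.Injective b) with hS
  have hlog : 0 ≤ Real.log x := Real.log_natCast_nonneg x
  have hterm : ∀ b ∈ S, (tupleCount b x : ℝ) ^ 2 ≤
      C ^ 2 * (x / (Real.log x) ^ r) ^ 2 * (#(offd r) * ∑ q ∈ offd r, rat (Nat.dist (b q.1) (b q.2)) ^ (A * 2)) := by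
    intro b hb
    rw [hS, mem_filter] at hb
    have h1 := h x hx b hb.2
    calc (tupleCount b x : ℝ) ^ 2 ≤
        (C * x / (Real.log x) ^ r * ∑ q ∈ offd r, rat (Nat.dist (b q.1) (b q.2)) ^ A) ^ 2 :=
          pow_le_pow_left₀ (by positivity) h1 2
      _ = C ^ 2 * (x / (Real.log x) ^ r) ^ 2 * (∑ q ∈ offd r, rat (Nat.dist (b q.1) (b q.2)) ^ A) ^ 2 := by ring
      _ ≤ _ := by
          apply mul_le_mul_of_nonneg_left _ (by positivity)
          have h2 := sq_sum_le_card_mul_sum_sq (s := offd r) (f := fun q => rat (Nat.dist (b q.1) (b q.2)) ^ A)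
          refine h2.trans (le_of_eq ?_)
          congr 1
          apply sum_congr rfl
          intro q _
          rw [← pow_mul]
  have hsum : ∑ b ∈ S, ∑ q ∈ offd r, rat (Nat.dist (b q.1) (b q.2)) ^ (A * 2) ≤
      #(offd r) * (2 * C2 * (H : ℝ) ^ r) := by
    rw [sum_comm]
    have h1 : ∀ q ∈ offd r, ∑ b ∈ S, rat (Nat.dist (b q.1) (b q.2)) ^ (A * 2) ≤ 2 * C2 * (H : ℝ) ^ r := by
      intro q hq
      have hq' : q.1 ≠ q.2 := (mem_filter.1 hq).2
      have hnn : ∀ n, 0 ≤ rat n ^ (A * 2) := fun n => by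
        have := H646.TuplesM.rat_nonneg n
        positivity
      have h2 := pair_sum_le q.1 q.2 hq' H (fun n => rat n ^ (A * 2)) (fun n _ => hnn n)
      have h3 := hmom H
      calc ∑ b ∈ S, rat (Nat.dist (b q.1) (b q.2)) ^ (A * 2) ≤
          ∑ b ∈ (Fintype.piFinset (fun _ : Fin r => Icc 1 H)).filter (fun b => b q.1 ≠ b q.2),
            rat (Nat.dist (b q.1) (b q.2)) ^ (A * 2) := by
            apply sum_le_sum_of_subset_of_nonneg
            · intro b hb
              rw [hS, mem_filter] at hb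
              rw [mem_filter]
              exact ⟨hb.1, fun h => hq' (hb.2 h)⟩
            · intro b _ _
              exact hnn _
        _ ≤ 2 * (H : ℝ) ^ (r - 1) * ∑ d ∈ Icc 1 H, rat d ^ (A * 2) := h2
        _ ≤ 2 * (H : ℝ) ^ (r - 1) * (C2 * H) := mul_le_mul_of_nonneg_left h3 (by positivity)
        _ = 2 * C2 * (H : ℝ) ^ r := by
            obtain ⟨k, rfl⟩ := Nat.exists_eq_add_of_le (show 1 ≤ r by omega)
            rw [Nat.add_sub_cancel_left, add_comm 1 k, pow_succ]
            ring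
    refine (sum_le_sum h1).trans (le_of_eq ?_)
    rw [sum_const, nsmul_eq_mul]
  calc ∑ b ∈ S, (tupleCount b x : ℝ) ^ 2 ≤ ∑ b ∈ S, C ^ 2 * (x / (Real.log x) ^ r) ^ 2 *
        (#(offd r) * ∑ q ∈ offd r, rat (Nat.dist (b q.1) (b q.2)) ^ (A * 2)) := sum_le_sum hterm
    _ = C ^ 2 * (x / (Real.log x) ^ r) ^ 2 * (#(offd r) *
        ∑ b ∈ S, ∑ q ∈ offd r, rat (Nat.dist (b q.1) (b q.2)) ^ (A * 2)) := by
        rw [← mul_sum, ← mul_sum]
    _ ≤ C ^ 2 * (x / (Real.log x) ^ r) ^ 2 * (#(offd r) * (#(offd r) * (2 * C2 * (H : ℝ) ^ r))) := by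
        apply mul_le_mul_of_nonneg_left _ (by positivity)
        exact mul_le_mul_of_nonneg_left hsum (by positivity)
    _ = C ^ 2 * (#(offd r) * (#(offd r) * (2 * C2))) * (H : ℝ) ^ r * (x / (Real.log x) ^ r) ^ 2 := by ring
    _ ≤ _ := by
        have : 0 ≤ (H : ℝ) ^ r * (x / (Real.log x) ^ r) ^ 2 := by positivity
        nlinarith

/-- inadmissible tuples have bounded count -/
theorem tupleCount_le_of_not_admissible {r : ℕ} (b : Fin r → ℕ) (hb : ¬ Admissible b) (x : ℕ) :
    tupleCount b x ≤ r := by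
  unfold Admissible at hb
  push Not at hb
  obtain ⟨p, hp, hnu⟩ := hb
  have hpr : p ≤ r := hnu.trans (nu_le_r b p)
  have himg : (univ.image fun i => b i % p) = range p := by
    apply eq_of_subset_of_card_le
    · intro v hv
      rw [mem_image] at hv
      obtain ⟨i, _, rfl⟩ := hv
      exact mem_range.2 (Nat.mod_lt _ hp.pos)
    · rw [card_range]; exact hnu
  unfold tupleCount
  calc _ ≤ #(Icc 1 r) := by
        apply card_le_card
        intro n hn
        rw [mem_filter, mem_Icc] at hn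
        rw [mem_Icc]
        refine ⟨hn.1.1, ?_⟩
        have h1 : (p - n % p) % p ∈ (univ.image fun i => b i % p) := by
          rw [himg, mem_range]; exact Nat.mod_lt _ hp.pos
        rw [mem_image] at h1
        obtain ⟨i, _, hi⟩ := h1
        have h2 : p ∣ n + b i := by
          rw [Nat.dvd_iff_mod_eq_zero, Nat.add_mod, hi]
          have h3 : n % p < p := Nat.mod_lt _ hp.pos
          generalize n % p = u at h3 ⊢
          rcases Nat.eq_zero_or_pos u with h | h
          · rw [h]; simp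
          · rw [Nat.mod_eq_of_lt (show p - u < p by omega)]
            have : u + (p - u) = p := by omega
            rw [this, Nat.mod_self]
        have h3 := (Nat.prime_dvd_prime_iff_eq hp (hn.2 i)).1 h2
        omega
    _ = r := by simp

end Pool.Agent.H386R2.HL
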