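import Mathlib
import Pool.Agent.H386R2.HL.D
import Pool.Agent.H386R2.HL.E

namespace Pool.Agent.H386R2.HL
open Finset

/-- For a positive proportion of the tuples at logarithmic scale, the Hardy-Littlewood prediction is a lower bound up
to a constant factor `θ` that tends to `1` with the size of the scale. -/
theorem main (r : ℕ) (hr : 2 ≤ r) (lam θ : ℝ) (hlam : (r : ℝ) - 1 < lam) (hθ0 : 0 < θ)
    (hθ : θ < ∏ i ∈ range r, (1 - (i : ℝ) / lam)) :
    ∃ c : ℝ, 0 < c ∧ ∃ x₀ : ℕ, ∀ x : ℕ, x₀ ≤ x → ∀ H : ℕ, lam * Real.log x ≤ H → H ≤ x →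
      ∃ G : Finset (Fin r → ℕ), c * (H : ℝ) ^ r ≤ #G ∧ ∀ a ∈ G, (∀ i, 1 ≤ a i ∧ a i ≤ H) ∧
        Function.Injective a ∧ Admissible a ∧
        ∃ S : ℝ, HasProd (fun p : Nat.Primes => localFactor a p) S ∧ 0 < S ∧
          θ * S * (x / (Real.log x) ^ r) ≤ tupleCount a x := by
  classical
  have hr1 : (2 : ℝ) ≤ r := by exact_mod_cast hr
  have hlam0 : 0 < lam := by linarith
  -- choose δ
  have hcont : Filter.Tendsto (fun δ : ℝ => (1 - δ) ^ r * ∏ i ∈ range r, (1 - (i : ℝ) / ((1 - δ) * lam)) - δ - θ * (1 + δ))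
      (nhds 0) (nhds ((1 - 0) ^ r * ∏ i ∈ range r, (1 - (i : ℝ) / ((1 - 0) * lam)) - 0 - θ * (1 + 0))) := by
    have h1 : ContinuousAt (fun δ : ℝ => (1 - δ) ^ r * ∏ i ∈ range r, (1 - (i : ℝ) / ((1 - δ) * lam)) - δ - θ * (1 + δ)) 0 := by
      apply ContinuousAt.sub
      · apply ContinuousAt.sub
        · apply ContinuousAt.mul
          · fun_prop
          · apply tendsto_finsetProd
            intro i _
            have h2 : (1 - (0 : ℝ)) * lam ≠ 0 := by simpa using hlam0.ne'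
            exact ContinuousAt.sub continuousAt_const (ContinuousAt.div continuousAt_const (by fun_prop) h2)
        · fun_prop
      · fun_prop
    exact h1
  have hpos0 : 0 < ((1 : ℝ) - 0) ^ r * ∏ i ∈ range r, (1 - (i : ℝ) / ((1 - 0) * lam)) - 0 - θ * (1 + 0) := by
    simp only [sub_zero, one_pow, one_mul, add_zero, mul_one]
    linarith
  have hev1 := hcont.eventually (lt_mem_nhds hpos0)
  have hev2 : ∀ᶠ δ : ℝ in nhds 0, (r : ℝ) - 1 < (1 - δ) * lam := by
    have h1 : Filter.Tendsto (fun δ : ℝ => (1 - δ) * lam) (nhds 0) (nhds ((1 - 0) * lam)) := by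
      have : ContinuousAt (fun δ : ℝ => (1 - δ) * lam) 0 := by fun_prop
      exact this
    exact h1.eventually (lt_mem_nhds (by simpa using hlam))
  have hev3 : ∀ᶠ δ : ℝ in nhds 0, δ < 1 := gt_mem_nhds (by norm_num)
  have hev := (hev1.and (hev2.and hev3)).filter_mono (nhdsWithin_le_nhds (s := Set.Ioi (0 : ℝ)))
  obtain ⟨δ, ⟨hδ1, hδ2, hδ3⟩, hδ0⟩ := (hev.and self_mem_nhdsWithin).exists

  set κ : ℝ := (1 - δ) ^ r * ∏ i ∈ range r, (1 - (i : ℝ) / ((1 - δ) * lam)) - δ - θ * (1 + δ) with hκ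
  set lam' : ℝ := (1 - δ) * lam with hlam'
  have hlam'0 : 0 < lam' := by linarith
  -- inputs
  obtain ⟨H₀, hS⟩ := sum_singularSeries_le r δ hδ0
  obtain ⟨C, hC, x₁, h2nd⟩ := second_moment r hr
  obtain ⟨x₂, h1st⟩ := sum_winCount δ hδ0
  have hl1 : ∀ᶠ x : ℕ in Filter.atTop, (H₀ : ℝ) ≤ lam * Real.log x :=
    ((Real.tendsto_log_atTop.comp tendsto_natCast_atTop_atTop).const_mul_atTop hlam0).eventually_ge_atTop _
  have hl2 : ∀ᶠ x : ℕ in Filter.atTop, (r : ℝ) ≤ δ * (x / (Real.log x) ^ r) := by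
    have h1 : (fun x : ℝ => Real.log x ^ ((r : ℕ) : ℝ)) =o[Filter.atTop] fun x : ℝ => x ^ (1 : ℝ) :=
      isLittleO_log_rpow_rpow_atTop ((r : ℕ) : ℝ) (by norm_num)
    have h2 := (h1.bound (c := δ / r) (by positivity))
    have h3 := (tendsto_natCast_atTop_atTop (R := ℝ)).eventually h2
    filter_upwards [h3, Filter.eventually_ge_atTop 3] with x hx hx3
    have hx3' : (3 : ℝ) ≤ x := by exact_mod_cast hx3
    have hlog : 0 < Real.log x := Real.log_pos (by linarith)
    rw [Real.rpow_natCast, Real.rpow_one, Real.norm_of_nonneg (by positivity), Real.norm_of_nonneg (by linarith)] at hx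
    rw [← mul_div_assoc, le_div_iff₀ (by positivity)]
    have hr0 : (0 : ℝ) < r := by linarith
    calc (r : ℝ) * Real.log x ^ r ≤ r * (δ / r * x) := mul_le_mul_of_nonneg_left hx hr0.le
      _ = δ * x := by field_simp
  obtain ⟨x₃, hx₃⟩ := Filter.eventually_atTop.1 (hl1.and hl2)
  refine ⟨κ ^ 2 / C, by positivity, max (max x₁ x₂) (max x₃ 3), fun x hx H hH1 hH2 => ?_⟩
  have hxx1 : x₁ ≤ x := (le_max_left _ _).trans ((le_max_left _ _).trans hx)
  have hxx2 : x₂ ≤ x := (le_max_right _ _).trans ((le_max_left _ _).trans hx)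
  have hxx3 : x₃ ≤ x := (le_max_left _ _).trans ((le_max_right _ _).trans hx)
  have hx3 : 3 ≤ x := (le_max_right _ _).trans ((le_max_right _ _).trans hx)
  obtain ⟨k1, k2⟩ := hx₃ x hxx3
  have hx3' : (3 : ℝ) ≤ x := by exact_mod_cast hx3
  have hlog : 0 < Real.log x := Real.log_pos (by linarith)
  have hHpos : (0 : ℝ) < H := lt_of_lt_of_le (by positivity) hH1
  have hHH₀ : H₀ ≤ H := by exact_mod_cast k1.trans hH1
  set T : ℝ := x / (Real.log x) ^ r with hT
  have hTpos : 0 < T := by positivity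
  set U := (Fintype.piFinset (fun _ : Fin r => Icc 1 H)).filter (fun b => Function.Injective b) with hU
  set Ad := U.filter (fun b => Admissible b) with hAd
  set G := Ad.filter (fun b => θ * singularSeries b * T ≤ tupleCount b x) with hG
  -- first moment
  set μ₀ : ℝ := (1 - δ) * (H / Real.log x) with hμ₀
  have hμ1 : lam' ≤ μ₀ := by
    rw [hlam', hμ₀]
    apply mul_le_mul_of_nonneg_left _ (by linarith)
    rw [le_div_iff₀ hlog]
    exact hH1
  have hfirst : ((1 - δ) ^ r * ∏ i ∈ range r, (1 - (i : ℝ) / lam')) * ((H : ℝ) ^ r * T) ≤ ∑ b ∈ U, (tupleCount b x : ℝ) := by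
    have h1 := jensen_lower r (by omega) x H (by omega) μ₀ lam' hδ2 hlam'0 hμ1 (by
      have := h1st x hxx2 H hH2
      calc μ₀ * x = (1 - δ) * (H * (x / Real.log x)) := by rw [hμ₀]; ring
        _ ≤ _ := this)
    have h2 : ∑ b ∈ U, (tupleCount b x : ℝ) = ∑ n ∈ Icc 1 x, ((winCount H n).descFactorial r : ℝ) := by
      have := sum_tupleCount r x H
      exact_mod_cast this
    rw [h2]
    refine le_trans (le_of_eq ?_) h1
    rw [hμ₀, hT, mul_pow, div_pow]
    ring
  -- inadmissible part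
  have hUcard : (#U : ℝ) ≤ (H : ℝ) ^ r := by
    have h1 : #U ≤ H ^ r := by
      calc #U ≤ #(Fintype.piFinset (fun _ : Fin r => Icc 1 H)) := card_filter_le _ _
        _ = H ^ r := by rw [Fintype.card_piFinset]; simp
    exact_mod_cast h1
  have hinad : ∑ b ∈ U.filter (fun b => ¬ Admissible b), (tupleCount b x : ℝ) ≤ δ * ((H : ℝ) ^ r * T) := by
    calc ∑ b ∈ U.filter (fun b => ¬ Admissible b), (tupleCount b x : ℝ) ≤
        ∑ _b ∈ U.filter (fun b => ¬ Admissible b), (r : ℝ) := by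
          apply sum_le_sum
          intro b hb
          exact_mod_cast tupleCount_le_of_not_admissible b (mem_filter.1 hb).2 x
      _ = #(U.filter (fun b => ¬ Admissible b)) * (r : ℝ) := by rw [sum_const, nsmul_eq_mul]
      _ ≤ (H : ℝ) ^ r * (δ * T) := by
          apply mul_le_mul _ k2 (by positivity) (by positivity)
          refine le_trans ?_ hUcard
          exact_mod_cast card_filter_le _ _
      _ = _ := by ring
  -- admissible but not good
  have hbad : ∑ b ∈ Ad.filter (fun b => ¬ θ * singularSeries b * T ≤ tupleCount b x), (tupleCount b x : ℝ) ≤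
      θ * (1 + δ) * ((H : ℝ) ^ r * T) := by
    calc _ ≤ ∑ b ∈ Ad.filter (fun b => ¬ θ * singularSeries b * T ≤ tupleCount b x), θ * T * singularSeries b := by
          apply sum_le_sum
          intro b hb
          have := (mem_filter.1 hb).2
          push Not at this
          linarith
      _ ≤ ∑ b ∈ U, θ * T * singularSeries b := by
          apply sum_le_sum_of_subset_of_nonneg
          · exact (filter_subset _ _).trans (filter_subset _ _)
          · intro b hb _
            have := singularSeries_nonneg (mem_filter.1 hb).2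
            positivity
      _ = θ * T * ∑ b ∈ U, singularSeries b := by rw [mul_sum]
      _ ≤ θ * T * ((1 + δ) * (H : ℝ) ^ r) := mul_le_mul_of_nonneg_left (hS H hHH₀) (by positivity)
      _ = _ := by ring
  -- the good tuples
  have hsplit : ∑ b ∈ U, (tupleCount b x : ℝ) = ∑ b ∈ G, (tupleCount b x : ℝ) +
      ∑ b ∈ Ad.filter (fun b => ¬ θ * singularSeries b * T ≤ tupleCount b x), (tupleCount b x : ℝ) +
      ∑ b ∈ U.filter (fun b => ¬ Admissible b), (tupleCount b x : ℝ) := by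
    rw [hG, sum_filter_add_sum_filter_not, hAd, sum_filter_add_sum_filter_not]
  have hgood : κ * ((H : ℝ) ^ r * T) ≤ ∑ b ∈ G, (tupleCount b x : ℝ) := by
    rw [hκ]
    have : ((1 - δ) ^ r * ∏ i ∈ range r, (1 - (i : ℝ) / ((1 - δ) * lam)) - δ - θ * (1 + δ)) * ((H : ℝ) ^ r * T) =
      ((1 - δ) ^ r * ∏ i ∈ range r, (1 - (i : ℝ) / lam')) * ((H : ℝ) ^ r * T) - δ * ((H : ℝ) ^ r * T) -
        θ * (1 + δ) * ((H : ℝ) ^ r * T) := by rw [hlam']; ring
    rw [this]
    linarith
  have hCS : (∑ b ∈ G, (tupleCount b x : ℝ)) ^ 2 ≤ #G * (C * (H : ℝ) ^ r * T ^ 2) := by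
    calc (∑ b ∈ G, (tupleCount b x : ℝ)) ^ 2 ≤ #G * ∑ b ∈ G, (tupleCount b x : ℝ) ^ 2 := sq_sum_le_card_mul_sum_sq
      _ ≤ #G * ∑ b ∈ U, (tupleCount b x : ℝ) ^ 2 := by
          apply mul_le_mul_of_nonneg_left _ (by positivity)
          apply sum_le_sum_of_subset_of_nonneg
          · exact (filter_subset _ _).trans (filter_subset _ _)
          · intro b _ _; positivity
      _ ≤ _ := mul_le_mul_of_nonneg_left (h2nd x hxx1 H) (by positivity)
  refine ⟨G, ?_, ?_⟩
  · have h1 : (κ * ((H : ℝ) ^ r * T)) ^ 2 ≤ #G * (C * (H : ℝ) ^ r * T ^ 2) :=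
      (pow_le_pow_left₀ (by positivity) hgood 2).trans hCS
    have h2 : (κ * ((H : ℝ) ^ r * T)) ^ 2 = (κ ^ 2 / C * (H : ℝ) ^ r) * (C * (H : ℝ) ^ r * T ^ 2) := by
      field_simp
    rw [h2] at h1
    exact le_of_mul_le_mul_right h1 (by positivity)
  · intro a ha
    rw [hG, mem_filter, hAd, mem_filter, hU, mem_filter, Fintype.mem_piFinset] at ha
    obtain ⟨⟨⟨h1, h2⟩, h3⟩, h4⟩ := ha
    exact ⟨fun i => mem_Icc.1 (h1 i), h2, h3, singularSeries a, (multipliable_localFactor a h2).hasProd,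
      singularSeries_pos h2 h3, h4⟩

end Pool.Agent.H386R2.HL
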